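import Pool.Agent.Lib.MP_b573ec_lc_SYR.Defs2
import Pool.Agent.Lib.MP_0a1b52_lc_SG.Core

/-!
# Project SYR, module GatesR: induction over the gates
-/

namespace Pool.Agent.SymRand

open Pool.Agent

variable {ι A I Κ : Type} [Group A] {s t ℓ : ℕ}

/-- **Module GatesR (1).**  `(D.exists_eval x).choose_spec`. -/
theorem eval_gateFunR (C : RCircuit I s t ℓ) (x : I → Bool) (i : Fin s) :
    C.gateFun i x = (C.gate i).value ℓ x fun k => C.gateFun k x :=
  (C.exists_eval x).choose_spec i

/-- **Module GatesR (2).**  The claim for an input.  Copy `SymGap.claim_input`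
(`MP_0a1b52_lc_SG/Core.lean`), with `D` instead of `2`. -/
theorem claim_bit {Ω V : Type} [DecidableEq ι] (S : SymGap.Sys ι A Ω Κ ℓ) {k D : ℕ} {f : Ω → V}
    {B B0 : Finset ι} (hB : B.card ≤ k) (hf : SymGap.Inv S.a f B) (hB0 : B0.card ≤ D)
    (hk : k + D ≤ S.k')
    (h : ∀ σ, ∀ κ ∈ S.K B0, f (S.a σ S.z0) = f (S.a σ (S.z κ))) : S.Claim k f := by
  refine ⟨B, hB, hf, fun σ κ hκ => ?_⟩
  obtain ⟨κ', hκ', τ, hτ, hz⟩ := S.ext B (B ∪ B0) κ Finset.subset_union_left
    ((Finset.card_union_le _ _).trans (by omega)) hκ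
  rw [h σ κ' (S.mono B0 (B ∪ B0) κ' Finset.subset_union_right hκ'), hz]
  exact SymGap.inv_move S hf hτ σ (S.z κ)

/-- **Module GatesR (3).**  All gates satisfy the claim.  Adapt `SymGap.all_claims`
(`MP_0a1b52_lc_SG/AllGates.lean`): strong induction over the number of the gate; `claim_bit` for the
input bits, `SymGap.claim_sum`, `SymGap.claim_threshold`, `SymGap.claim_modular` (finished, in
`MP_0a1b52_lc_SG/Core.lean`) for the other gates, with (1); the terms `ψ c ≠ 0` only read gates
with smaller numbers (`C.sum_lt`, ...). -/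
theorem all_claimsR [Fintype ι] [DecidableEq ι] [Fintype A]
    (S : SymGap.Sys ι A (I → Bool) Κ ℓ) (C : RCircuit I s t ℓ) {k D : ℕ}
    (h1 : k + D ≤ S.k') (h3 : (t + 1) * k ≤ S.k')
    (hinv : ∀ i, ∃ B : Finset ι, B.card ≤ k ∧ SymGap.Inv S.a (C.gateFun i) B)
    (hbit : ∀ i : I, ∃ B0 : Finset ι, B0.card ≤ D ∧ ∀ σ, ∀ κ ∈ S.K B0,
      S.a σ S.z0 i = S.a σ (S.z κ) i) :
    ∀ i, S.Claim k (C.gateFun i) := by
  classical
  intro i
  induction i using WellFounded.induction (wellFounded_lt (α := Fin s)) with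
  | _ i ih =>
    obtain ⟨B, hB, hf⟩ := hinv i
    cases hg : C.gate i with
    | bit a =>
      obtain ⟨B0, hB0, hed⟩ := hbit a
      refine claim_bit S hB hf hB0 h1 fun σ κ hκ => ?_
      have e0 := eval_gateFunR C (S.a σ S.z0) i
      have e1 := eval_gateFunR C (S.a σ (S.z κ)) i
      rw [hg] at e0 e1
      rw [e0, e1]
      simp only [RGate.value]
      rw [hed σ κ hκ]
    | sum ψ =>
      refine SymGap.claim_sum S hB hf h3 (fun h => C.gateFun h) ψ
        (fun c hc l => ih (c l) (C.sum_lt i ψ hg c hc l)) fun ω => ?_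
      have e0 := eval_gateFunR C ω i
      rw [hg] at e0
      exact e0
    | threshold ψ θ =>
      refine SymGap.claim_threshold S hB hf h3 (fun h => C.gateFun h) ψ θ
        (fun c hc l => ih (c l) (C.threshold_lt i ψ θ hg c hc l)) fun ω => ?_
      have e0 := eval_gateFunR C ω i
      rw [hg] at e0
      simp only [RGate.value] at e0
      exact ⟨fun h => by rw [e0, if_pos h], fun h => by rw [e0, if_neg h]⟩
    | modular ψ =>
      refine SymGap.claim_modular S hB hf h3 (fun h => C.gateFun h) ψ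
        (fun c hc l => ih (c l) (C.modular_lt i ψ hg c hc l)) fun ω => ?_
      have e0 := eval_gateFunR C ω i
      rw [hg] at e0
      exact e0

end Pool.Agent.SymRand
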