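import Pool.Agent.Lib.MP_b573ec_lc_SYR.Act0
import Pool.Agent.Lib.MP_0a1b52_lc_SG.Supp

/-!
# Project SYR, module SuppR: functions with few images have a small support
-/

namespace Pool.Agent.SymRand

open Pool.Agent

/-- **Module SuppR.**  Copy the proof of `SymGap.exists_support` (`MP_0a1b52_lc_SG/Supp.lean`):
`SymGap.index_eq` for the action `act ρ` (`act_one`, `act_mul`), `SymGap.support`,
`SymGap.alt_index`, `SymGap.alt_perfect`. -/
theorem exists_supportR {j m r : ℕ} {I V : Type} (hm : 5 ≤ m)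
    (ρ : (Fin j → alternatingGroup (Fin m)) →* Equiv.Perm I) (f : (I → Bool) → V)
    (hf : (images ρ f).ncard < m ^ r) :
    ∃ B : Finset (Fin j), B.card ≤ 2 * r ∧ SymGap.Inv (act ρ) f B := by
  obtain ⟨H, hH, hidx⟩ := SymGap.index_eq (Γ := Fin j → alternatingGroup (Fin m)) (act ρ)
    (fun x => act_one ρ x) (fun σ τ x => act_mul ρ σ τ x) f
  have h1 : H.index < m ^ r := by
    rw [hidx]
    exact hf
  obtain ⟨B, hB, hB'⟩ := SymGap.support (m := m) (r := r) (by omega)
    (fun K hK => SymGap.alt_index hm K hK) (SymGap.alt_perfect hm) j H h1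
  exact ⟨B, hB, fun τ hτ => (hH τ).1 (hB' τ hτ)⟩

end Pool.Agent.SymRand
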