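import Pool.Agent.Lib.MP_b573ec_lc_SYR.MkS
import Pool.Agent.Lib.MP_b573ec_lc_SYR.GatesR
import Pool.Agent.Lib.MP_b573ec_lc_SYR.SuppR
import Pool.Agent.Lib.MP_0a1b52_lc_SG.AllGates

/-!
# Project SYR, module LowR: the lower bound
-/

namespace Pool.Agent.SymRand

open Pool.Agent

/-- **Module LowR.**

PROOF.  `S` from `exists_sysV`.  By `exists_supportR` each `C.gateFun i` is invariant off a set of
card `≤ k = 2 * r`.  `k + D ≤ s1` and `(t + 1) * k ≤ 4 * t * r ≤ s1` (as `t ≥ 1`).  `all_claimsR`,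
then `SymGap.claim_count` (`MP_0a1b52_lc_SG/AllGates.lean`) for `C.out` with `κ0 = 0`. -/
theorem low {D N M p n s1 : ℕ} [NeZero p] (hp : Odd p) (hp5 : 5 ≤ p) (P : Setup D N M p n)
    (b : Fin M → ZMod p) (hs1 : 1 ≤ s1) (hv : SymGap.Expands P.v 1 (2 * s1)) {t r ℓ s : ℕ}
    (ht : 1 ≤ t) (hpl : p.Coprime ℓ) (hr : 4 * t * r + D ≤ s1) (C : RCircuit (Fin n) s t ℓ)
    (hC : ∀ i, (images P.rho (C.gateFun i)).ncard < p ^ r) (y : ℝ) :
    {σ | C.gateFun C.out (act P.rho σ (P.inst b)) = y}.ncard =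
      {σ | C.gateFun C.out (act P.rho σ (P.inst 0)) = y}.ncard := by
  classical
  obtain ⟨S, ha, hz0, hz, h0, hk', hbit⟩ := exists_sysV (ℓ := ℓ) hp hpl P b hs1 hv
  have htr : 2 * r ≤ t * (2 * r) := Nat.le_mul_of_pos_left _ ht
  have htr2 : 4 * t * r = t * (2 * r) + t * (2 * r) := by ring
  have h1 : 2 * r + D ≤ S.k' := by
    rw [hk']
    omega
  have h3 : (t + 1) * (2 * r) ≤ S.k' := by
    rw [hk', Nat.add_mul, Nat.one_mul]
    omega
  have hinv : ∀ i, ∃ B : Finset (Fin n), B.card ≤ 2 * r ∧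
      SymGap.Inv S.a (C.gateFun i) B := by
    intro i
    rw [ha]
    exact exists_supportR hp5 P.rho (C.gateFun i) (hC i)
  have hcl := all_claimsR S C h1 h3 hinv hbit C.out
  have hcount := SymGap.claim_count S (le_trans (Nat.le_add_right _ _) h1) hcl h0 y
  rw [ha, hz0, hz] at hcount
  exact hcount.symm

end Pool.Agent.SymRand
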