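import Pool.Agent.Lib.MP_b573ec_lc_SYR.Defs2
import Pool.Agent.Lib.MP_0a1b52_lc_SG.ExpD

/-!
# Project SYR, module Par: the parameters
-/

namespace Pool.Agent.SymRand

open Pool.Agent

/-- **Module Par (1).**

PROOF.  `SymGap.exists_expands` (finished, `MP_0a1b52_lc_SG/ExpD.lean`) with `D = 5`, `a = 3`,
`h = 1`, `e = 1` gives `K0 ≥ 1`.  `C1 = 288 * K0 * p ^ 6`.  Given `n ≥ C1` let
`N = n / (6 * p ^ 6)` and `s1 = N / (12 * K0)`.  Since `n / (6 p ^ 6) ≥ 1` and `N / (12 K0) ≥ 1`,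
the floors are at least half: `n ≤ 12 * p ^ 6 * N`, `N ≤ 24 * K0 * s1`, so `n ≤ C1 * s1`.
`exists_expands` with `C0 = 6`, `M = 5 * N + 1 ≤ 6 * N`, `s0 = 2 * s1`: `K0 * 6 * (2 * s1) ≤ N`;
it gives `v`.  The embeddings exist because `5 * N ≤ n` and
`(5 * N + 1) * (p ^ 5 * p) ≤ 6 * N * p ^ 6 ≤ n` (`Function.Embedding.nonempty_of_card_le`,
`Fintype.card_prod`, `Fintype.card_fun`, `ZMod.card`); `10 * N ≤ n`. -/
theorem exists_setup (p : ℕ) [NeZero p] : ∃ C1 : ℕ, 1 ≤ C1 ∧ ∀ n : ℕ, C1 ≤ n →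
    ∃ (N s1 : ℕ) (P : Setup 5 N (5 * N + 1) p n), 1 ≤ N ∧ 10 * N ≤ n ∧ n ≤ C1 * s1 ∧
      SymGap.Expands P.v 1 (2 * s1) := by
  obtain ⟨K0, hK0, H⟩ := SymGap.exists_expands (D := 5) (a := 3) (h := 1) (e := 1) rfl rfl
    (by norm_num) (le_refl 1)
  have hp : 0 < p := Nat.pos_of_ne_zero (NeZero.ne p)
  have hp6 : 0 < p ^ 6 := Nat.pow_pos hp
  have hK : 0 < K0 := hK0
  refine ⟨576 * K0 * p ^ 6, ?_, ?_⟩
  · have : 0 < 576 * K0 * p ^ 6 := by positivity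
    exact this
  intro n hn
  obtain ⟨N, hN⟩ : ∃ N, N = n / (12 * p ^ 6) := ⟨_, rfl⟩
  obtain ⟨s1, hs1⟩ : ∃ s1, s1 = N / (12 * K0) := ⟨_, rfl⟩
  have h1 : 12 * p ^ 6 * N ≤ n := by
    rw [hN]
    exact Nat.mul_div_le n _
  have h2 : n < 12 * p ^ 6 * (N + 1) := by
    rw [hN]
    exact Nat.lt_mul_div_succ n (by positivity)
  have hNK : 48 * K0 ≤ N := by
    rw [hN, Nat.le_div_iff_mul_le (by positivity)]
    calc 48 * K0 * (12 * p ^ 6) = 576 * K0 * p ^ 6 := by ring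
      _ ≤ n := hn
  have h3 : 12 * K0 * s1 ≤ N := by
    rw [hs1]
    exact Nat.mul_div_le N _
  have h4 : N < 12 * K0 * (s1 + 1) := by
    rw [hs1]
    exact Nat.lt_mul_div_succ N (by positivity)
  have hs : 1 ≤ s1 := by
    rw [hs1, Nat.le_div_iff_mul_le (by positivity)]
    linarith
  have hN1 : 1 ≤ N := by linarith
  obtain ⟨v, hv⟩ := H 6 N (5 * N + 1) (2 * s1) (by norm_num) hN1 (by linarith) (by
    rw [pow_one, pow_one]
    linarith)
  have h5 : 12 * N ≤ n := by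
    have : 12 * 1 * N ≤ 12 * p ^ 6 * N :=
      Nat.mul_le_mul_right N (Nat.mul_le_mul_left 12 hp6)
    linarith
  have e1 : Nonempty (Fin 5 × Fin N ↪ Fin n) := by
    apply Function.Embedding.nonempty_of_card_le
    rw [Fintype.card_prod, Fintype.card_fin, Fintype.card_fin, Fintype.card_fin]
    linarith
  have e2 : Nonempty (Fin (5 * N + 1) × (Fin 5 → Fin p) × ZMod p ↪ Fin n) := by
    apply Function.Embedding.nonempty_of_card_le
    rw [Fintype.card_prod, Fintype.card_prod, Fintype.card_fun, ZMod.card, Fintype.card_fin,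
      Fintype.card_fin, Fintype.card_fin, Fintype.card_fin]
    calc (5 * N + 1) * (p ^ 5 * p) = (5 * N + 1) * p ^ 6 := by ring
      _ ≤ (12 * N) * p ^ 6 := Nat.mul_le_mul_right _ (by linarith)
      _ = 12 * p ^ 6 * N := by ring
      _ ≤ n := h1
  obtain ⟨bl⟩ := e1
  obtain ⟨β⟩ := e2
  refine ⟨N, s1, ⟨v, bl, β⟩, hN1, by linarith, ?_, hv⟩
  have h6 : N + 1 ≤ 24 * K0 * s1 + 0 := by
    have : 12 * K0 * (s1 + 1) ≤ 12 * K0 * (2 * s1) := Nat.mul_le_mul_left _ (by linarith)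
    have h7 : 12 * K0 * (2 * s1) = 24 * K0 * s1 := by ring
    omega
  calc n ≤ 12 * p ^ 6 * (N + 1) := h2.le
    _ ≤ 12 * p ^ 6 * (24 * K0 * s1 + 0) := Nat.mul_le_mul_left _ h6
    _ ≤ 576 * K0 * p ^ 6 * s1 := by
        have : 12 * p ^ 6 * (24 * K0 * s1 + 0) = 288 * K0 * p ^ 6 * s1 := by ring
        rw [this]
        exact Nat.mul_le_mul_right _ (Nat.mul_le_mul_right _ (Nat.mul_le_mul_right _
          (by norm_num)))

/-- **Module Par (2).**  The size of the circuit.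

PROOF.  Let `L = Nat.log 2 n + 1 ≥ 1`, `Q = 2 ^ p * (Nat.log 2 (2 * (5 * N)) + 1) ≤ 2 ^ p * L`
(`Nat.log_mono_right`, `2 * (5 * N) ≤ n`), `Q + 1 ≤ 2 * 2 ^ p * L`, `5 * N ≤ n`, `1 ≤ n`.  With
`K = 2 * p ^ 5` each summand is at most a constant (depending on `p`) times `n * L`; take for `C2`
the sum of these constants, for instance
`1 + K * 2 ^ p * p + K * 2 * 2 ^ p + K * 2 * 2 ^ p * p + 2 * K + 3 * K * p + K + 1`. -/
theorem size_le (p : ℕ) : ∃ C2 : ℕ, ∀ n N K Q : ℕ, 1 ≤ N → 10 * N ≤ n → K = 2 * p ^ 5 →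
    Q = 2 ^ p * (Nat.log 2 (2 * (5 * N)) + 1) →
    n + K * (5 * N * (Q * p)) + K * (5 * N * (Q + 1)) + K * (5 * N * ((Q + 1) * p)) +
      K * (5 * N + 1) + K * ((5 * N + 1 + 1) * p) + K + 1 ≤
      C2 * (n * (Nat.log 2 n + 1)) := by
  obtain ⟨K, hK⟩ : ∃ K, K = 2 * p ^ 5 := ⟨_, rfl⟩
  refine ⟨1 + K * 2 ^ p * p + K * 2 * 2 ^ p + K * 2 * 2 ^ p * p + 2 * K + 3 * K * p + K + 1,
    ?_⟩
  rintro n N K' Q hN hn hK' hQ
  obtain rfl : K' = K := by rw [hK', hK]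
  obtain ⟨L, hL⟩ : ∃ L, L = Nat.log 2 n + 1 := ⟨_, rfl⟩
  have hL1 : 1 ≤ L := by rw [hL]; exact Nat.le_add_left 1 _
  have hQL : Q ≤ 2 ^ p * L := by
    rw [hQ, hL]
    have : Nat.log 2 (2 * (5 * N)) ≤ Nat.log 2 n := Nat.log_mono_right (by linarith)
    exact Nat.mul_le_mul_left _ (Nat.add_le_add_right this 1)
  have hp2 : 1 ≤ 2 ^ p := Nat.one_le_two_pow
  have hQ1 : Q + 1 ≤ 2 * 2 ^ p * L := by nlinarith
  rw [← hL]
  have hn1 : 5 * N + 2 ≤ n := by linarith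
  have hnL : n ≤ n * L := Nat.le_mul_of_pos_right n hL1
  have h5N : 5 * N ≤ n := by linarith
  have t1 : K' * (5 * N * (Q * p)) ≤ K' * 2 ^ p * p * (n * L) := by
    calc K' * (5 * N * (Q * p)) ≤ K' * (n * (2 ^ p * L * p)) := by gcongr
      _ = K' * 2 ^ p * p * (n * L) := by ring
  have t2 : K' * (5 * N * (Q + 1)) ≤ K' * 2 * 2 ^ p * (n * L) := by
    calc K' * (5 * N * (Q + 1)) ≤ K' * (n * (2 * 2 ^ p * L)) := by gcongr
      _ = K' * 2 * 2 ^ p * (n * L) := by ring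
  have t3 : K' * (5 * N * ((Q + 1) * p)) ≤ K' * 2 * 2 ^ p * p * (n * L) := by
    calc K' * (5 * N * ((Q + 1) * p)) ≤ K' * (n * (2 * 2 ^ p * L * p)) := by gcongr
      _ = K' * 2 * 2 ^ p * p * (n * L) := by ring
  have t4 : K' * (5 * N + 1) ≤ K' * (n * L) := by
    apply Nat.mul_le_mul_left
    linarith
  have t5 : K' * ((5 * N + 1 + 1) * p) ≤ K' * p * (n * L) := by
    calc K' * ((5 * N + 1 + 1) * p) = K' * p * (5 * N + 2) := by ring
      _ ≤ K' * p * (n * L) := Nat.mul_le_mul_left _ (by linarith)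
  have t6 : K' ≤ K' * (n * L) := Nat.le_mul_of_pos_right _ (by
    have : 1 ≤ n := by linarith
    exact Nat.mul_pos this hL1)
  have t7 : 1 ≤ n * L := by linarith
  have t8 : K' * p * (n * L) ≤ 3 * K' * p * (n * L) := by
    have : 3 * K' * p * (n * L) = 3 * (K' * p * (n * L)) := by ring
    rw [this]
    exact Nat.le_mul_of_pos_left _ (by norm_num)
  have hex : (1 + K' * 2 ^ p * p + K' * 2 * 2 ^ p + K' * 2 * 2 ^ p * p + 2 * K' + 3 * K' * p +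
      K' + 1) * (n * L) = n * L + K' * 2 ^ p * p * (n * L) + K' * 2 * 2 ^ p * (n * L) +
      K' * 2 * 2 ^ p * p * (n * L) + 2 * (K' * (n * L)) + 3 * K' * p * (n * L) +
      K' * (n * L) + n * L := by ring
  rw [hex]
  linarith

end Pool.Agent.SymRand
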