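import Mathlib

/-!
# Project SYR, module Amp: amplification
-/

namespace Pool.Agent.SymRand

/-- Bernoulli's inequality. -/
private theorem Amp_bern (u g m : ℕ) :
    u ^ (m + 1) + (m + 1) * u ^ m * g ≤ (u + g) ^ (m + 1) := by
  induction m with
  | zero => simp
  | succ m ih =>
    calc u ^ (m + 1 + 1) + (m + 1 + 1) * u ^ (m + 1) * g
        ≤ u ^ (m + 1 + 1) + (m + 1 + 1) * u ^ (m + 1) * g + (m + 1) * u ^ m * g * g :=
          Nat.le_add_right _ _
      _ = (u ^ (m + 1) + (m + 1) * u ^ m * g) * (u + g) := by ring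
      _ ≤ (u + g) ^ (m + 1) * (u + g) := Nat.mul_le_mul_right _ ih
      _ = (u + g) ^ (m + 1 + 1) := by ring

/-- **Module Amp.**  Let at least the part `1 / (2 a)` of the elements of `A` be good.  Then at
least half of the `2 a`-tuples contain a good element.

PROOF.  The tuples without a good element are `Fintype.piFinset fun _ => Gᶜ`; there are
`(|A| - |G|) ^ (2 a)` of them.  `|A| - |G| ≤ |A| (1 - 1 / (2 a))` and
`(1 - 1 / (2 a)) ^ (2 a) ≤ exp (-1) ≤ 1 / 2` (`Real.one_sub_le_exp_neg`, or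
`Real.add_one_le_exp`, and `Real.exp_one_gt_d9`).  So `2 * (|A| - |G|) ^ (2 a) ≤ |A| ^ (2 a)`, and
the number of the other tuples is `|A| ^ (2 a)` minus this. -/
theorem amplify {A : Type} [Fintype A] [DecidableEq A] (G : Finset A) (a : ℕ) (ha : 1 ≤ a)
    (h : Fintype.card A ≤ 2 * a * G.card) :
    Fintype.card A ^ (2 * a) ≤
      2 * (Finset.univ.filter fun r : Fin (2 * a) → A => ∃ k, r k ∈ G).card := by
  obtain ⟨m, hm⟩ : ∃ m, 2 * a = m + 1 := ⟨2 * a - 1, by omega⟩
  have h1 : (Finset.univ.filter fun r : Fin (2 * a) → A => ∃ k, r k ∈ G) =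
      (Fintype.piFinset fun _ : Fin (2 * a) => Gᶜ)ᶜ := by
    ext r
    simp only [Finset.mem_filter, Finset.mem_univ, true_and, Finset.mem_compl,
      Fintype.mem_piFinset, not_forall, not_not]
  have h2 : (Fintype.piFinset fun _ : Fin (2 * a) => Gᶜ).card = Gᶜ.card ^ (2 * a) := by
    rw [Fintype.card_piFinset, Finset.prod_const, Finset.card_univ, Fintype.card_fin]
  have h3 : Fintype.card (Fin (2 * a) → A) = Fintype.card A ^ (2 * a) := by
    rw [Fintype.card_fun, Fintype.card_fin]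
  have h4 : Gᶜ.card + G.card = Fintype.card A := by
    rw [Finset.card_compl]
    exact Nat.sub_add_cancel (Finset.card_le_univ G)
  rw [h1, Finset.card_compl, h2, h3]
  have h5 := Amp_bern Gᶜ.card G.card m
  rw [h4] at h5
  have h6 : Gᶜ.card ^ m * Gᶜ.card ≤ Gᶜ.card ^ m * ((m + 1) * G.card) := by
    refine Nat.mul_le_mul_left _ ?_
    rw [← hm]
    omega
  have h7 : 2 * Gᶜ.card ^ (2 * a) ≤ Fintype.card A ^ (2 * a) := by
    rw [hm]
    calc 2 * Gᶜ.card ^ (m + 1) = Gᶜ.card ^ (m + 1) + Gᶜ.card ^ m * Gᶜ.card := by ring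
      _ ≤ Gᶜ.card ^ (m + 1) + Gᶜ.card ^ m * ((m + 1) * G.card) := Nat.add_le_add_left h6 _
      _ = Gᶜ.card ^ (m + 1) + (m + 1) * Gᶜ.card ^ m * G.card := by ring
      _ ≤ Fintype.card A ^ (m + 1) := h5
  omega

end Pool.Agent.SymRand
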