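import Pool.Agent.Lib.MP_b573ec_lc_SYR.Sel

/-!
# Project SYR, module Cnt: the probability of success of one copy
-/

namespace Pool.Agent.SymRand

private theorem Cnt_sl_unique {p Q : ℕ} {r : Fin Q → Fin p → Bool} {q : ℕ} {z z' : Fin p}
    (h : sl r q z = true) (h' : sl r q z' = true) : z = z' := by
  unfold sl at h h'
  simp only [decide_eq_true_eq] at h h'
  obtain ⟨i, -, hu, hz, hm⟩ := h
  obtain ⟨i', -, hu', hz', hm'⟩ := h'
  have hi : i = i' := by
    rcases lt_trichotomy i i' with h1 | h1 | h1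
    · exact absurd hu (hm' i h1)
    · exact h1
    · exact absurd hu' (hm i' h1)
  subst hi
  exact hu.unique hz hz'

open Classical in
/-- **Module Cnt (1).**

PROOF.  The set of the `r` is the disjoint union over the `ζ` with `T ζ` of the sets
`{r | ∀ x, sl (r x) Q (ζ x) = true}` (disjoint because of `sl_unique`, `dn_of_sl`), which are
`Fintype.piFinset fun x => {r | sl r Q (ζ x) = true}` with `g ^ card X` elements
(`Fintype.card_piFinset`, `Finset.card_biUnion`). -/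
theorem card_one {X : Type} [Fintype X] {p Q g : ℕ} (T : (X → Fin p) → Prop)
    (hg : ∀ z : Fin p,
      (Finset.univ.filter fun r : Fin Q → Fin p → Bool => sl r Q z = true).card = g) :
    (Finset.univ.filter fun r : X → Fin Q → Fin p → Bool =>
      ∃ ζ : X → Fin p, (∀ x, sl (r x) Q (ζ x) = true) ∧ T ζ).card =
      (Finset.univ.filter fun ζ : X → Fin p => T ζ).card * g ^ Fintype.card X := by
  have h1 : (Finset.univ.filter fun r : X → Fin Q → Fin p → Bool =>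
      ∃ ζ : X → Fin p, (∀ x, sl (r x) Q (ζ x) = true) ∧ T ζ) =
      (Finset.univ.filter fun ζ : X → Fin p => T ζ).biUnion fun ζ =>
        Fintype.piFinset fun x =>
          Finset.univ.filter fun r : Fin Q → Fin p → Bool => sl r Q (ζ x) = true := by
    ext r
    simp only [Finset.mem_filter, Finset.mem_univ, true_and, Finset.mem_biUnion,
      Fintype.mem_piFinset]
    constructor
    · rintro ⟨ζ, h2, h3⟩
      exact ⟨ζ, h3, h2⟩
    · rintro ⟨ζ, h3, h2⟩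
      exact ⟨ζ, h2, h3⟩
  rw [h1, Finset.card_biUnion]
  · have h2 : ∀ ζ : X → Fin p, (Fintype.piFinset fun x =>
        Finset.univ.filter fun r : Fin Q → Fin p → Bool => sl r Q (ζ x) = true).card =
        g ^ Fintype.card X := by
      intro ζ
      rw [Fintype.card_piFinset, Finset.prod_congr rfl fun x _ => hg (ζ x), Finset.prod_const,
        Finset.card_univ]
    rw [Finset.sum_congr rfl fun ζ _ => h2 ζ, Finset.sum_const, smul_eq_mul]
  · intro ζ _ ζ' _ hne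
    refine Finset.disjoint_left.2 ?_
    intro r hr hr'
    apply hne
    funext x
    have h2 := Fintype.mem_piFinset.1 hr x
    have h3 := Fintype.mem_piFinset.1 hr' x
    exact Cnt_sl_unique (Finset.mem_filter.1 h2).2 (Finset.mem_filter.1 h3).2

private theorem Cnt_bern {B F a j : ℕ} (h1 : a + F = B) (h2 : 2 * j * F ≤ B) :
    B ^ j ≤ 2 * a ^ j := by
  rcases Nat.eq_zero_or_pos B with hB | hB
  · subst hB
    have ha : a = 0 := by omega
    subst ha
    omega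
  · have hB' : (0 : ℝ) < B := by exact_mod_cast hB
    have h1' : (a : ℝ) = B * (1 + -(F / B : ℝ)) := by
      have h3 : (a : ℝ) + F = B := by exact_mod_cast h1
      have h4 : (B : ℝ) * (1 + -(F / B : ℝ)) = B - F := by
        field_simp
        ring
      rw [h4]
      linarith
    have hF : (F : ℝ) / B ≤ 1 := by
      rw [div_le_one hB']
      have : F ≤ B := by omega
      exact_mod_cast this
    have h3 := one_add_mul_le_pow (a := -(F / B : ℝ)) (by linarith) j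
    have h4 : (1 : ℝ) / 2 ≤ 1 + j * -(F / B : ℝ) := by
      have h5 : (2 : ℝ) * j * F ≤ B := by exact_mod_cast h2
      have h6 : (j : ℝ) * (F / B) ≤ 1 / 2 := by
        rw [← mul_div_assoc, div_le_iff₀ hB']
        linarith
      linarith
    have h5 : (B : ℝ) ^ j ≤ 2 * (a : ℝ) ^ j := by
      rw [h1', mul_pow]
      have h6 : (0 : ℝ) ≤ (B : ℝ) ^ j := pow_nonneg hB'.le j
      have h7 := mul_le_mul_of_nonneg_left (h4.trans h3) h6
      linarith
    exact_mod_cast h5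

/-- **Module Cnt (2).**  Arithmetic.

PROOF.  Let `B = 2 ^ (p * Q)`, so `p * g = B - F` and `2 * j * F ≤ B`.  By Bernoulli
(`one_add_mul_le_pow` over the reals, with `-F / B ≥ -1`), `(p g) ^ j = B ^ j (1 - F / B) ^ j ≥
B ^ j (1 - j F / B) ≥ B ^ j / 2`.  Hence
`B ^ j ≤ 2 (p g) ^ j = 2 p ^ j g ^ j ≤ 2 (p ^ D G) g ^ j`. -/
theorem arith_one {p Q F g j D G : ℕ} (h1 : p * g + F = 2 ^ (p * Q))
    (h2 : 2 * j * F ≤ 2 ^ (p * Q)) (h3 : p ^ j ≤ p ^ D * G) :
    (2 ^ (p * Q)) ^ j ≤ 2 * p ^ D * (G * g ^ j) := by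
  have h4 := Cnt_bern h1 h2
  rw [mul_pow] at h4
  have h5 := Nat.mul_le_mul_right (g ^ j) h3
  calc (2 ^ (p * Q)) ^ j ≤ 2 * (p ^ j * g ^ j) := h4
    _ ≤ 2 * (p ^ D * G * g ^ j) := Nat.mul_le_mul_left 2 h5
    _ = 2 * p ^ D * (G * g ^ j) := by ring

private theorem Cnt_half {p : ℕ} (hp : 1 ≤ p) :
    2 * (2 ^ p - p) ^ 2 ^ p ≤ (2 ^ p) ^ 2 ^ p := by
  have h0 : p ≤ 2 ^ p := Nat.lt_two_pow_self.le
  have hB : (0 : ℝ) < ((2 ^ p : ℕ) : ℝ) := by
    have : 0 < 2 ^ p := Nat.two_pow_pos p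
    exact_mod_cast this
  have h1 : (1 - (p : ℝ) / ((2 ^ p : ℕ) : ℝ)) ^ 2 ^ p ≤ Real.exp (-(p : ℝ)) :=
    Real.one_sub_div_pow_le_exp_neg (by exact_mod_cast h0)
  have h2 : Real.exp (-(p : ℝ)) ≤ 1 / 2 := by
    have h3 : Real.exp (-(p : ℝ)) ≤ Real.exp (-1) := by
      apply Real.exp_le_exp.2
      have : (1 : ℝ) ≤ p := by exact_mod_cast hp
      linarith
    have h4 : Real.exp (-1) ≤ 1 / 2 := by
      rw [Real.exp_neg, inv_eq_one_div]
      apply one_div_le_one_div_of_le (by norm_num)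
      have := Real.exp_one_gt_d9
      linarith
    exact h3.trans h4
  have h3 : ((2 ^ p - p : ℕ) : ℝ) =
      ((2 ^ p : ℕ) : ℝ) * (1 - (p : ℝ) / ((2 ^ p : ℕ) : ℝ)) := by
    rw [Nat.cast_sub h0, mul_sub, mul_one, mul_div_cancel₀ _ hB.ne']
  have h4 : (2 : ℝ) * ((2 ^ p - p : ℕ) : ℝ) ^ 2 ^ p ≤ ((2 ^ p : ℕ) : ℝ) ^ 2 ^ p := by
    rw [h3, mul_pow]
    have h5 : (0 : ℝ) ≤ ((2 ^ p : ℕ) : ℝ) ^ 2 ^ p := pow_nonneg hB.le _
    have h6 := mul_le_mul_of_nonneg_left (h1.trans h2) h5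
    linarith
  exact_mod_cast h4

/-- **Module Cnt (3).**  The number of tries.

PROOF.  Let `B = 2 ^ p`, `L = Nat.log 2 (2 * j) + 1`, so `2 * j < 2 ^ L`
(`Nat.lt_pow_succ_log_self`).  `2 * (B - p) ^ B ≤ B ^ B`: `(1 - p / B) ^ B ≤ exp (-p) ≤ exp (-1)
≤ 1 / 2` (`Real.add_one_le_exp`, `Real.exp_one_gt_d9`; `p < B` by `Nat.lt_two_pow_self`).  Raise
this to the power `L`:
`2 ^ L * (B - p) ^ (B * L) ≤ B ^ (B * L) = 2 ^ (p * (B * L))`. -/
theorem tries {p : ℕ} (hp : 1 ≤ p) (j : ℕ) :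
    2 * j * (2 ^ p - p) ^ (2 ^ p * (Nat.log 2 (2 * j) + 1)) ≤
      2 ^ (p * (2 ^ p * (Nat.log 2 (2 * j) + 1))) := by
  set L := Nat.log 2 (2 * j) + 1 with hL
  have h1 : 2 * j ≤ 2 ^ L := (Nat.lt_pow_succ_log_self (by norm_num) (2 * j)).le
  have h2 := Nat.pow_le_pow_left (Cnt_half hp) L
  calc 2 * j * (2 ^ p - p) ^ (2 ^ p * L) ≤ 2 ^ L * (2 ^ p - p) ^ (2 ^ p * L) :=
        Nat.mul_le_mul_right _ h1
    _ = (2 * (2 ^ p - p) ^ 2 ^ p) ^ L := by rw [mul_pow, ← pow_mul]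
    _ ≤ ((2 ^ p) ^ 2 ^ p) ^ L := h2
    _ = 2 ^ (p * (2 ^ p * L)) := by rw [← pow_mul, ← pow_mul]

end Pool.Agent.SymRand
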