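import Mathlib

/-!
# Project SYR, module Jun: nonzero sums of functions of few variables
-/

namespace Pool.Agent.SymRand

/-- the alternating sum over the subsets of `U` -/
private def Jun_del {X A Z : Type} [DecidableEq X] [AddCommGroup Z] (F : (X → A) → Z)
    (U : Finset X) (ζ ζ' : X → A) : Z :=
  ∑ V ∈ U.powerset, (-1 : ℤ) ^ V.card • F (V.piecewise ζ' ζ)

private theorem Jun_insert {X A Z : Type} [DecidableEq X] [AddCommGroup Z] (F : (X → A) → Z)
    {U : Finset X} {x : X} (hx : x ∉ U) (ζ ζ' : X → A) :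
    Jun_del F (insert x U) ζ ζ' =
      Jun_del F U ζ ζ' - Jun_del F U (Function.update ζ x (ζ' x)) ζ' := by
  unfold Jun_del
  rw [Finset.sum_powerset_insert hx, sub_eq_add_neg, ← Finset.sum_neg_distrib]
  congr 1
  refine Finset.sum_congr rfl fun V hV => ?_
  have hxV : x ∉ V := fun h => hx (Finset.mem_powerset.1 hV h)
  rw [Finset.card_insert_of_notMem hxV, pow_succ, mul_neg_one, neg_smul,
    Finset.piecewise_insert, Finset.update_piecewise_of_notMem V ζ' ζ hxV]

private theorem Jun_zero {X A Z : Type} [DecidableEq X] [AddCommGroup Z] (F : (X → A) → Z)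
    {S U : Finset X} (hF : ∀ ζ ζ' : X → A, (∀ x ∈ S, ζ x = ζ' x) → F ζ = F ζ') {x : X}
    (hxU : x ∈ U) (hxS : x ∉ S) (ζ ζ' : X → A) : Jun_del F U ζ ζ' = 0 := by
  rw [← Finset.insert_erase hxU, Jun_insert F (Finset.notMem_erase x U), sub_eq_zero]
  unfold Jun_del
  refine Finset.sum_congr rfl fun V hV => ?_
  congr 1
  refine hF _ _ fun y hy => ?_
  have hyx : y ≠ x := fun h => hxS (h ▸ hy)
  by_cases hyV : y ∈ V
  · rw [Finset.piecewise_eq_of_mem _ _ _ hyV, Finset.piecewise_eq_of_mem _ _ _ hyV]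
  · rw [Finset.piecewise_eq_of_notMem _ _ _ hyV, Finset.piecewise_eq_of_notMem _ _ _ hyV,
      Function.update_of_ne hyx]

private theorem Jun_sum {X A Z C : Type} [DecidableEq X] [AddCommGroup Z] [Fintype C]
    (g : C → (X → A) → Z) (U : Finset X) (ζ ζ' : X → A) :
    Jun_del (fun η => ∑ c, g c η) U ζ ζ' = ∑ c, Jun_del (g c) U ζ ζ' := by
  unfold Jun_del
  rw [Finset.sum_comm]
  refine Finset.sum_congr rfl fun V _ => ?_
  rw [Finset.smul_sum]

private theorem Jun_right {X A Z : Type} [DecidableEq X] [AddCommGroup Z] (F : (X → A) → Z)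
    {U : Finset X} {x : X} (hx : x ∉ U) (a : A) (ζ ζ' : X → A) :
    Jun_del F U ζ (Function.update ζ' x a) = Jun_del F U ζ ζ' := by
  unfold Jun_del
  refine Finset.sum_congr rfl fun V hV => ?_
  have hxV : x ∉ V := fun h => hx (Finset.mem_powerset.1 hV h)
  congr 2
  funext y
  by_cases hyV : y ∈ V
  · have hyx : y ≠ x := fun h => hxV (h ▸ hyV)
    rw [Finset.piecewise_eq_of_mem _ _ _ hyV, Finset.piecewise_eq_of_mem _ _ _ hyV,
      Function.update_of_ne hyx]
  · rw [Finset.piecewise_eq_of_notMem _ _ _ hyV, Finset.piecewise_eq_of_notMem _ _ _ hyV]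

/-- **Module Jun (1).**  Let the function `G ζ = ∑ c, g c ζ` be a sum of functions each of which
depends on at most `D` variables, with values in an abelian group.  If `G` is not identically
zero, then there is a set `U` of at most `D` variables such that every `ζ` can be changed in `U` to
get a point where `G` is not zero.

PROOF.  For `U : Finset X` and `ζ ζ' : X → A` let
`Δ F U ζ ζ' = ∑ V ∈ U.powerset, (-1) ^ V.card • F (fun x => if x ∈ V then ζ' x else ζ x)`.
(a) If `F` depends only on the variables in `S` and `x ∈ U`, `x ∉ S`, then `Δ F U ζ ζ' = 0`: pair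
`V` (not containing `x`) with `insert x V` (`Finset.sum_powerset_insert` for
`U = insert x (U.erase x)`).  So `Δ G U = 0` if `D < U.card`, because for each `c` there is
`x ∈ U \ S c`.
(b) Among the sets `U` such that `Δ G U ζ ζ' ≠ 0` for some `ζ, ζ'` (`U = ∅` is one of them:
`Δ G ∅ ζ0 ζ0 = G ζ0`) choose one with the largest card.  By (a) `U.card ≤ D`.
(c) For `x ∉ U`, `Δ G (insert x U) ζ ζ' = Δ G U ζ ζ' - Δ G U (Function.update ζ x (ζ' x)) ζ'` and
this is `0` for all `ζ, ζ'` by the choice of `U`.  So `Δ G U ζ ζ'` does not change if `ζ` is changed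
in one variable outside `U` (given `a`, apply this to `ζ'` with `ζ' x = a`; `Δ G U ζ ζ'` does not
depend on the values of `ζ'` outside `U`), hence if it is changed in any way outside `U` (finite
induction over the variables outside `U`, `Finset.induction_on`).
(d) Given `ζ`: let `η = fun x => if x ∈ U then ζ1 x else ζ x`, where `Δ G U ζ1 ζ1' ≠ 0`.  Then
`Δ G U η ζ1' = Δ G U ζ1 ζ1' ≠ 0`, so some term `G (fun x => if x ∈ V then ζ1' x else η x)` with
`V ⊆ U` is not zero, and this point agrees with `ζ` outside of `U`. -/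
theorem junta {X A Z C : Type} [Fintype X] [DecidableEq X] [AddCommGroup Z] [Fintype C]
    (S : C → Finset X) (D : ℕ) (hS : ∀ c, (S c).card ≤ D) (g : C → (X → A) → Z)
    (hg : ∀ c ζ ζ', (∀ x ∈ S c, ζ x = ζ' x) → g c ζ = g c ζ') (ζ0 : X → A)
    (h0 : ∑ c, g c ζ0 ≠ 0) :
    ∃ U : Finset X, U.card ≤ D ∧ ∀ ζ : X → A, ∃ ζ' : X → A, (∀ x, x ∉ U → ζ' x = ζ x) ∧
      ∑ c, g c ζ' ≠ 0 := by
  classical
  obtain ⟨G, hG⟩ : ∃ G : (X → A) → Z, G = fun ζ => ∑ c, g c ζ := ⟨_, rfl⟩
  obtain ⟨P, hP⟩ : ∃ P : Finset (Finset X),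
      P = Finset.univ.filter fun U => ∃ ζ ζ' : X → A, Jun_del G U ζ ζ' ≠ 0 := ⟨_, rfl⟩
  have hne : P.Nonempty := by
    refine ⟨∅, ?_⟩
    rw [hP, Finset.mem_filter]
    refine ⟨Finset.mem_univ _, ζ0, ζ0, ?_⟩
    unfold Jun_del
    rw [Finset.powerset_empty, Finset.sum_singleton, Finset.card_empty, pow_zero, one_smul, hG]
    have h1 : (∅ : Finset X).piecewise ζ0 ζ0 = ζ0 := Finset.piecewise_empty _ _
    rw [h1]
    exact h0
  obtain ⟨U, hU, hmax⟩ := P.exists_max_image Finset.card hne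
  rw [hP, Finset.mem_filter] at hU
  obtain ⟨-, ζ1, ζ1', h1⟩ := hU
  have hcard : U.card ≤ D := by
    by_contra hlt
    apply h1
    rw [hG, Jun_sum]
    refine Finset.sum_eq_zero fun c _ => ?_
    have h2 : ¬ U ⊆ S c := fun h3 => hlt ((Finset.card_le_card h3).trans (hS c))
    obtain ⟨x, hxU, hxS⟩ := Finset.not_subset.1 h2
    exact Jun_zero (g c) (hg c) hxU hxS ζ1 ζ1'
  have hstep : ∀ x, x ∉ U → ∀ (a : A) (ζ ζ' : X → A),
      Jun_del G U (Function.update ζ x a) ζ' = Jun_del G U ζ ζ' := by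
    intro x hx a ζ ζ'
    have h2 : Jun_del G (insert x U) ζ (Function.update ζ' x a) = 0 := by
      by_contra h3
      have h4 := hmax (insert x U) (by
        rw [hP, Finset.mem_filter]
        exact ⟨Finset.mem_univ _, _, _, h3⟩)
      rw [Finset.card_insert_of_notMem hx] at h4
      omega
    rw [Jun_insert G hx, Function.update_self, Jun_right G hx, Jun_right G hx, sub_eq_zero] at h2
    exact h2.symm
  have hany : ∀ T : Finset X, (∀ x ∈ T, x ∉ U) → ∀ η ζ ζ' : X → A,
      Jun_del G U (T.piecewise η ζ) ζ' = Jun_del G U ζ ζ' := by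
    intro T
    induction T using Finset.induction_on with
    | empty =>
      intro _ η ζ ζ'
      rw [Finset.piecewise_empty]
    | insert x T hx ih =>
      intro hT η ζ ζ'
      rw [Finset.piecewise_insert, hstep x (hT x (Finset.mem_insert_self x T)),
        ih fun y hy => hT y (Finset.mem_insert_of_mem hy)]
  refine ⟨U, hcard, fun ζ => ?_⟩
  have h2 : Jun_del G U ((Finset.univ \ U).piecewise ζ ζ1) ζ1' ≠ 0 := by
    rw [hany _ (fun x hx => (Finset.mem_sdiff.1 hx).2)]
    exact h1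
  unfold Jun_del at h2
  obtain ⟨V, hV, h3⟩ := Finset.exists_ne_zero_of_sum_ne_zero h2
  refine ⟨V.piecewise ζ1' ((Finset.univ \ U).piecewise ζ ζ1), fun x hx => ?_, ?_⟩
  · have hxV : x ∉ V := fun h => hx (Finset.mem_powerset.1 hV h)
    rw [Finset.piecewise_eq_of_notMem _ _ _ hxV, Finset.piecewise_eq_of_mem]
    exact Finset.mem_sdiff.2 ⟨Finset.mem_univ _, hx⟩
  · intro h4
    apply h3
    rw [hG]
    dsimp only
    rw [h4, smul_zero]

/-- **Module Jun (2).**  So at least the part `|A| ^ (-D)` of all points are not zeros.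

PROOF.  `U` from (1), and for each `ζ` choose `F ζ` with `F ζ = ζ` outside `U` and
`∑ c, g c (F ζ) ≠ 0`.  The map `ζ ↦ (F ζ, fun x : U => ζ x)` is injective, so
`|A| ^ |X| ≤ #{ζ | ..} * |A| ^ |U|`, and `|A| ^ |U| ≤ |A| ^ D`. -/
theorem junta_card {X A Z C : Type} [Fintype X] [DecidableEq X] [Fintype A] [Nonempty A]
    [AddCommGroup Z] [DecidableEq Z] [Fintype C] (S : C → Finset X) (D : ℕ)
    (hS : ∀ c, (S c).card ≤ D) (g : C → (X → A) → Z)
    (hg : ∀ c ζ ζ', (∀ x ∈ S c, ζ x = ζ' x) → g c ζ = g c ζ') (ζ0 : X → A)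
    (h0 : ∑ c, g c ζ0 ≠ 0) :
    Fintype.card A ^ Fintype.card X ≤ Fintype.card A ^ D *
      (Finset.univ.filter fun ζ : X → A => ∑ c, g c ζ ≠ 0).card := by
  obtain ⟨U, hU, h1⟩ := junta S D hS g hg ζ0 h0
  choose F hF1 hF2 using h1
  have hinj : Function.Injective fun ζ : X → A =>
      ((⟨F ζ, by
        rw [Finset.mem_filter]
        exact ⟨Finset.mem_univ _, hF2 ζ⟩⟩ :
          {η : X → A // η ∈ Finset.univ.filter fun η : X → A => ∑ c, g c η ≠ 0}),
        fun x : U => ζ x) := by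
    intro ζ ζ' h2
    rw [Prod.mk.injEq] at h2
    obtain ⟨h3, h4⟩ := h2
    have h5 : F ζ = F ζ' := congrArg Subtype.val h3
    funext x
    by_cases hx : x ∈ U
    · exact congrFun h4 ⟨x, hx⟩
    · rw [← hF1 ζ x hx, ← hF1 ζ' x hx, h5]
  have h2 := Fintype.card_le_of_injective _ hinj
  rw [Fintype.card_prod, Fintype.card_fun, Fintype.card_fun, Fintype.card_coe,
    Fintype.card_coe] at h2
  have h3 : Fintype.card A ^ U.card ≤ Fintype.card A ^ D :=
    Nat.pow_le_pow_right Fintype.card_pos hU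
  calc Fintype.card A ^ Fintype.card X ≤ _ := h2
    _ = Fintype.card A ^ U.card *
        (Finset.univ.filter fun ζ : X → A => ∑ c, g c ζ ≠ 0).card := Nat.mul_comm _ _
    _ ≤ _ := Nat.mul_le_mul_right _ h3

end Pool.Agent.SymRand
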