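import Pool.Agent.Lib.MP_b573ec_lc_SYR.Sel

/-!
# Project SYR, module Sel2: counting the random bits with a given choice
-/

namespace Pool.Agent.SymRand

variable {p Q : ℕ}

open Classical in
private theorem Sel2_one : (Finset.univ.filter fun s : Fin p → Bool => ∃! z, s z = true).card =
    p := by
  have h : (Finset.univ.filter fun s : Fin p → Bool => ∃! z, s z = true) =
      Finset.univ.image fun z₀ : Fin p => fun z : Fin p => decide (z = z₀) := by
    ext s
    simp only [Finset.mem_filter, Finset.mem_univ, true_and, Finset.mem_image]
    constructor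
    · rintro ⟨z₀, h1, h2⟩
      refine ⟨z₀, ?_⟩
      funext z
      by_cases hz : z = z₀
      · rw [hz, h1]
        simp
      · have h3 : s z ≠ true := fun h4 => hz (h2 z h4)
        rw [Bool.eq_false_iff.2 h3]
        simp [hz]
    · rintro ⟨z₀, rfl⟩
      refine ⟨z₀, by simp, ?_⟩
      intro z hz
      simpa using hz
  have hinj : Function.Injective fun z₀ : Fin p => fun z : Fin p => decide (z = z₀) := by
    intro a b hab
    have h1 := congrFun hab a
    simpa using h1
  rw [h, Finset.card_image_of_injective _ hinj, Finset.card_univ, Fintype.card_fin]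

open Classical in
private theorem Sel2_not :
    (Finset.univ.filter fun s : Fin p → Bool => ¬ ∃! z, s z = true).card = 2 ^ p - p := by
  have h1 := Finset.card_filter_add_card_filter_not (s := (Finset.univ : Finset (Fin p → Bool)))
    fun s : Fin p → Bool => ∃! z, s z = true
  rw [Sel2_one, Finset.card_univ, Fintype.card_fun, Fintype.card_bool, Fintype.card_fin] at h1
  omega

/-- **Module Sel2 (1).**  `dn r Q = false` iff for no `i : Fin Q` exactly one of the bits `r i z` is
`true`.  The number of the functions `Fin p → Bool` with exactly one `true` is `p` (they are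
`fun z => decide (z = z0)`, `z0 : Fin p`), so it is `2 ^ p - p` for the others.  `Fintype.piFinset`,
`Fintype.card_piFinset`. -/
theorem card_fail : (Finset.univ.filter fun r : Fin Q → Fin p → Bool => dn r Q = false).card =
    (2 ^ p - p) ^ Q := by
  classical
  have h : (Finset.univ.filter fun r : Fin Q → Fin p → Bool => dn r Q = false) =
      Fintype.piFinset fun _ : Fin Q =>
        Finset.univ.filter fun s : Fin p → Bool => ¬ ∃! z, s z = true := by
    ext r
    rw [Finset.mem_filter, Fintype.mem_piFinset]
    unfold dn
    rw [decide_eq_false_iff_not]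
    constructor
    · rintro ⟨-, h1⟩ i
      rw [Finset.mem_filter]
      exact ⟨Finset.mem_univ _, fun h2 => h1 ⟨i, i.2, h2⟩⟩
    · intro h1
      refine ⟨Finset.mem_univ _, ?_⟩
      rintro ⟨i, -, h2⟩
      exact (Finset.mem_filter.1 (h1 i)).2 h2
  rw [h, Fintype.card_piFinset]
  have h2 := Sel2_not (p := p)
  simp only [Finset.prod_const, Finset.card_univ, Fintype.card_fin]
  rw [← h2]

/-- **Module Sel2 (2).**  By `sl_perm` with the transposition `Equiv.swap z z'`:
`r ↦ fun i z => r i (swap z z' z)` is a bijection between the two sets. -/
theorem card_sl_eq (z z' : Fin p) :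
    (Finset.univ.filter fun r : Fin Q → Fin p → Bool => sl r Q z = true).card =
      (Finset.univ.filter fun r : Fin Q → Fin p → Bool => sl r Q z' = true).card := by
  refine Finset.card_nbij' (fun r i w => r i (Equiv.swap z z' w))
    (fun r i w => r i (Equiv.swap z z' w)) ?_ ?_ ?_ ?_
  · intro r hr
    have hr' : sl r Q z = true := by simpa using hr
    have h1 : sl (fun i w => r i (Equiv.swap z z' w)) Q z' = true := by
      rw [sl_perm, Equiv.swap_apply_right]
      exact hr'
    simpa using h1
  · intro r hr
    have hr' : sl r Q z' = true := by simpa using hr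
    have h1 : sl (fun i w => r i (Equiv.swap z z' w)) Q z = true := by
      rw [sl_perm, Equiv.swap_apply_left]
      exact hr'
    simpa using h1
  · intro r _
    funext i w
    simp
  · intro r _
    funext i w
    simp

/-- **Module Sel2 (3).**  All `2 ^ (p * Q)` functions `r` are either counted in (1) or are in
exactly one of the `p` sets `{r | sl r Q z = true}` (`sl_unique`, `dn_of_sl`), which have the same
card by (2). -/
theorem card_sl (z : Fin p) :
    p * (Finset.univ.filter fun r : Fin Q → Fin p → Bool => sl r Q z = true).card +
      (2 ^ p - p) ^ Q = 2 ^ (p * Q) := by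
  classical
  have h1 : (Finset.univ.filter fun r : Fin Q → Fin p → Bool => dn r Q = true).card =
      ∑ w : Fin p, (Finset.univ.filter fun r : Fin Q → Fin p → Bool =>
        sl r Q w = true).card := by
    rw [← Finset.card_biUnion]
    · congr 1
      ext r
      simp only [Finset.mem_filter, Finset.mem_univ, true_and, Finset.mem_biUnion]
      exact ⟨fun h => (sl_unique r Q h).exists, fun ⟨w, hw⟩ => dn_of_sl r Q w hw⟩
    · intro a _ b _ hab
      rw [Function.onFun, Finset.disjoint_left]
      intro r ha hb
      rw [Finset.mem_filter] at ha hb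
      exact hab ((sl_unique r Q (dn_of_sl r Q a ha.2)).unique ha.2 hb.2)
  have h2 : ∑ w : Fin p, (Finset.univ.filter fun r : Fin Q → Fin p → Bool =>
      sl r Q w = true).card = p * (Finset.univ.filter fun r : Fin Q → Fin p → Bool =>
        sl r Q z = true).card := by
    rw [Finset.sum_congr rfl fun w _ => card_sl_eq w z]
    simp
  have h3 := Finset.card_filter_add_card_filter_not
    (s := (Finset.univ : Finset (Fin Q → Fin p → Bool))) fun r => dn r Q = true
  have h4 : (Finset.univ.filter fun r : Fin Q → Fin p → Bool => ¬ dn r Q = true).card =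
      (2 ^ p - p) ^ Q := by
    rw [← card_fail]
    congr 1
    ext r
    simp
  have h5 : (Finset.univ : Finset (Fin Q → Fin p → Bool)).card = 2 ^ (p * Q) := by
    rw [Finset.card_univ, Fintype.card_fun, Fintype.card_fun, Fintype.card_bool,
      Fintype.card_fin, Fintype.card_fin, pow_mul]
  rw [← h2, ← h1, ← h4, h3, h5]

end Pool.Agent.SymRand
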