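import Pool.Agent.Lib.MP_b573ec_lc_SYR.Sel
import Pool.Agent.Lib.MP_b573ec_lc_SYR.Sel2
import Pool.Agent.Lib.MP_b573ec_lc_SYR.Jun
import Pool.Agent.Lib.MP_b573ec_lc_SYR.Cnt
import Pool.Agent.Lib.MP_b573ec_lc_SYR.Amp

/-!
# Project SYR, module NetCor: the circuit is correct
-/

namespace Pool.Agent.SymRand

open Pool.Agent

variable {D N M p n K Q : ℕ} [NeZero p]

/-- **Module NetCor (1).**  If `ζ X` is the chosen element for every variable `X`, then the term of
`c` is the one of `P.T`.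

PROOF.  By `dn_of_sl` and `sl_unique`, `sl (rr ω k X) Q z = true ↔ z = ζ X`.  So in the sum over
`z : Fin D → Fin p` only `z = fun i => ζ (i, P.v c i)` contributes (`Finset.sum_ite_eq` after
rewriting the condition by `funext_iff`). -/
theorem term_eq (P : Setup D N M p n) (y : Fin M → ZMod p)
    (ω : Fin n ⊕ RBit D N p K Q → Bool) (k : Fin K) (ζ : Fin D × Fin N → Fin p)
    (hζ : ∀ X, sl (rr ω k X) Q (ζ X) = true) (c : Fin M) :
    P.term y ω k c = y c * P.num (xx ω) c fun i => ζ (i, P.v c i) := by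
  unfold Setup.term
  congr 1
  rw [Finset.sum_eq_single fun i => ζ (i, P.v c i)]
  · rw [if_pos]
    intro i
    exact hζ _
  · intro z _ hz
    rw [if_neg]
    intro h
    apply hz
    funext i
    exact (sl_unique _ _ (dn_of_sl _ _ _ (h i))).unique (h i) (hζ _)
  · intro h
    exact absurd (Finset.mem_univ _) h

private theorem NetCor_T (P : Setup D N M p n) (y : Fin M → ZMod p)
    (ω : Fin n ⊕ RBit D N p K Q → Bool) (k : Fin K) (ζ : Fin D × Fin N → Fin p)
    (hζ : ∀ X, sl (rr ω k X) Q (ζ X) = true) : ∑ c, P.term y ω k c = P.T y (xx ω) ζ := by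
  unfold Setup.T
  exact Finset.sum_congr rfl fun c _ => term_eq P y ω k ζ hζ c

/-- **Module NetCor (2).**  By (1), `sl_unique` (choose `ζ`), `dn_of_sl`. -/
theorem out_true (P : Setup D N M p n) (y : Fin M → ZMod p)
    (ω : Fin n ⊕ RBit D N p K Q → Bool) :
    P.val y (Nm.out : Nm D N M p n K Q) ω = true ↔
      ∃ k : Fin K, ∃ ζ : Fin D × Fin N → Fin p, (∀ X, sl (rr ω k X) Q (ζ X) = true) ∧
        P.T y (xx ω) ζ ≠ 0 := by
  unfold Setup.val
  rw [decide_eq_true_iff]
  constructor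
  · rintro ⟨k, h1, h2⟩
    have h3 : ∀ X, ∃ z, sl (rr ω k X) Q z = true := fun X => (sl_unique _ _ (h1 X)).exists
    choose ζ hζ using h3
    refine ⟨k, ζ, hζ, ?_⟩
    rwa [← NetCor_T P y ω k ζ hζ]
  · rintro ⟨k, ζ, h1, h2⟩
    refine ⟨k, fun X => dn_of_sl _ _ _ (h1 X), ?_⟩
    rwa [NetCor_T P y ω k ζ h1]

/-- The number of the elements with a property does not depend on the instances. -/
private theorem NetCor_inst {α : Type} (q q' : α → Prop) (h : q = q')
    (i1 : DecidablePred q) (i2 : DecidablePred q') (f1 f2 : Fintype α) :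
    (@Finset.filter α q i1 (@Finset.univ α f1)).card =
      (@Finset.filter α q' i2 (@Finset.univ α f2)).card := by
  subst h
  rw [Subsingleton.elim i1 i2, Subsingleton.elim f1 f2]

open Classical in
/-- **Module NetCor (3).**  One copy succeeds with probability at least `1 / (2 p ^ D)`.

PROOF.  `f x = true`: there is `ζ0` with `P.T y x ζ0 ≠ 0`.  `junta_card` for the functions
`g c ζ = y c * P.num x c fun i => ζ (i, P.v c i)`, which depend on the variables in
`univ.image fun i => (i, P.v c i)`: `p ^ (D * N) ≤ p ^ D * #{ζ | P.T y x ζ ≠ 0}`.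
`card_one` with the number `g` from `card_sl` (the same for all `z` by `card_sl_eq`), then
`arith_one` with `F = (2 ^ p - p) ^ Q`, `j = D * N`, `h2 = hQ`.  The left-hand side is
`(2 ^ (p * Q)) ^ (D * N)`. -/
theorem one_copy (P : Setup D N M p n) (y : Fin M → ZMod p)
    (hQ : 2 * (D * N) * (2 ^ p - p) ^ Q ≤ 2 ^ (p * Q)) (x : Fin n → Bool)
    (hx : P.f y x = true) :
    Fintype.card (Fin D × Fin N → Fin Q → Fin p → Bool) ≤
      2 * p ^ D * (Finset.univ.filter fun r : Fin D × Fin N → Fin Q → Fin p → Bool =>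
        ∃ ζ : Fin D × Fin N → Fin p, (∀ X, sl (r X) Q (ζ X) = true) ∧ P.T y x ζ ≠ 0).card := by
  have hp : 0 < p := Nat.pos_of_neZero p
  have : Nonempty (Fin p) := ⟨⟨0, hp⟩⟩
  have h0 : ∃ ζ, P.T y x ζ ≠ 0 := by
    unfold Setup.f at hx
    exact of_decide_eq_true hx
  obtain ⟨ζ0, h0⟩ := h0
  have h1 := junta_card (X := Fin D × Fin N) (A := Fin p) (Z := ZMod p) (C := Fin M)
    (fun c => Finset.univ.image fun i : Fin D => (i, P.v c i)) D
    (fun c => Finset.card_image_le.trans (by rw [Finset.card_univ, Fintype.card_fin]))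
    (fun c ζ => y c * P.num x c fun i => ζ (i, P.v c i))
    (fun c ζ ζ' h => by
      have h2 : (fun i => ζ (i, P.v c i)) = fun i => ζ' (i, P.v c i) := by
        funext i
        exact h _ (Finset.mem_image_of_mem _ (Finset.mem_univ i))
      rw [h2]) ζ0 h0
  rw [Fintype.card_fin, Fintype.card_prod, Fintype.card_fin, Fintype.card_fin] at h1
  have h2 := card_one (X := Fin D × Fin N) (p := p) (Q := Q) (fun ζ => P.T y x ζ ≠ 0)
    (fun z => card_sl_eq z (⟨0, hp⟩ : Fin p))
  rw [Fintype.card_prod, Fintype.card_fin, Fintype.card_fin] at h2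
  have h3 : Fintype.card (Fin D × Fin N → Fin Q → Fin p → Bool) =
      (2 ^ (p * Q)) ^ (D * N) := by
    rw [Fintype.card_fun, Fintype.card_fun, Fintype.card_fun, Fintype.card_bool,
      Fintype.card_prod, Fintype.card_fin, Fintype.card_fin, Fintype.card_fin,
      Fintype.card_fin, pow_mul 2 p Q]
  rw [h3]
  have h4 := arith_one (card_sl (⟨0, hp⟩ : Fin p)) hQ h1
  have h5 : (Finset.univ.filter fun r : Fin D × Fin N → Fin Q → Fin p → Bool =>
        ∃ ζ : Fin D × Fin N → Fin p, (∀ X, sl (r X) Q (ζ X) = true) ∧ P.T y x ζ ≠ 0).card =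
      (Finset.univ.filter fun ζ : Fin D × Fin N → Fin p =>
        ∑ c, (y c * P.num x c fun i => ζ (i, P.v c i)) ≠ 0).card *
      (Finset.univ.filter fun r : Fin Q → Fin p → Bool =>
        sl r Q (⟨0, hp⟩ : Fin p) = true).card ^ (D * N) := by
    refine (NetCor_inst _ _ rfl _ _ _ _).trans (h2.trans ?_)
    exact congrArg₂ (· * ·) (NetCor_inst _ _ rfl _ _ _ _)
      (congrArg (· ^ (D * N)) (NetCor_inst _ _ rfl _ _ _ _))
  rw [h5]
  exact h4

/-- **Module NetCor (4).**  At least half of the random bits are accepted.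

PROOF.  `amplify` with `a = p ^ D` (`a ≥ 1`), `A = Fin D × Fin N → Fin Q → Fin p → Bool`, `G` the set
in (3) (note `2 * p ^ D * G.card = 2 * a * G.card`).  The map
`r ↦ fun k X q z => r (k, X, q, z)` is a bijection between `RBit D N p (2 * p ^ D) Q → Bool` and
`Fin (2 * p ^ D) → A` (`Equiv.curry` several times), and `rr (Sum.elim x r) k X q z =
r (k, X, q, z)`, `xx (Sum.elim x r) = x`; by (2) the accepted `r` correspond to the
tuples with an element in `G`.  `2 ^ card (RBit ..) = card (RBit .. → Bool) = card A ^ (2 * a)`.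
`Set.ncard_eq_toFinset_card'`. -/
theorem half (P : Setup D N M p n) (y : Fin M → ZMod p)
    (hQ : 2 * (D * N) * (2 ^ p - p) ^ Q ≤ 2 ^ (p * Q)) (x : Fin n → Bool)
    (hx : P.f y x = true) :
    2 ^ Fintype.card (RBit D N p (2 * p ^ D) Q) ≤
      2 * {r : RBit D N p (2 * p ^ D) Q → Bool |
        P.val y (Nm.out : Nm D N M p n (2 * p ^ D) Q) (Sum.elim x r) = true}.ncard := by
  classical
  have ha : 1 ≤ p ^ D := Nat.one_le_pow _ _ (Nat.pos_of_neZero p)
  have h1 := one_copy P y hQ x hx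
  obtain ⟨G, hG⟩ : ∃ G : Finset (Fin D × Fin N → Fin Q → Fin p → Bool),
      G = Finset.univ.filter fun r : Fin D × Fin N → Fin Q → Fin p → Bool =>
        ∃ ζ : Fin D × Fin N → Fin p, (∀ X, sl (r X) Q (ζ X) = true) ∧ P.T y x ζ ≠ 0 := ⟨_, rfl⟩
  have h2 : Fintype.card (Fin D × Fin N → Fin Q → Fin p → Bool) ≤ 2 * p ^ D * G.card := by
    rw [hG]
    convert h1
  have h3 := amplify G (p ^ D) ha h2
  have e : (RBit D N p (2 * p ^ D) Q → Bool) ≃
      (Fin (2 * p ^ D) → Fin D × Fin N → Fin Q → Fin p → Bool) :=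
    (Equiv.curry _ _ _).trans (Equiv.piCongrRight fun _ => (Equiv.curry _ _ _).trans
      (Equiv.piCongrRight fun _ => Equiv.curry _ _ _))
  have h4 : 2 ^ Fintype.card (RBit D N p (2 * p ^ D) Q) =
      Fintype.card (Fin D × Fin N → Fin Q → Fin p → Bool) ^ (2 * p ^ D) := by
    have h5 := Fintype.card_congr e
    rw [Fintype.card_fun (α := RBit D N p (2 * p ^ D) Q), Fintype.card_bool,
      Fintype.card_fun (α := Fin (2 * p ^ D)), Fintype.card_fin] at h5
    exact h5
  rw [h4]
  refine h3.trans (Nat.mul_le_mul_left 2 (le_of_eq ?_))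
  obtain ⟨g, hg⟩ : ∃ g : (RBit D N p (2 * p ^ D) Q → Bool) →
      (Fin (2 * p ^ D) → Fin D × Fin N → Fin Q → Fin p → Bool),
      g = fun r k X q z => r (k, X, q, z) := ⟨_, rfl⟩
  have hinj : Function.Injective g := by
    intro r r' h
    funext ⟨k, X, q, z⟩
    rw [hg] at h
    exact congrFun (congrFun (congrFun (congrFun h k) X) q) z
  rw [← Set.ncard_image_of_injective _ hinj, ← Set.ncard_coe_finset]
  congr 1
  ext t
  simp only [Finset.coe_filter, Finset.mem_univ, true_and, Set.mem_ofPred_eq, Set.mem_image]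
  have hxx : ∀ r : RBit D N p (2 * p ^ D) Q → Bool,
      xx (K := 2 * p ^ D) (Q := Q) (D := D) (N := N) (p := p) (Sum.elim x r) = x :=
    fun r => rfl
  constructor
  · rintro ⟨k, hk⟩
    rw [hG, Finset.mem_filter] at hk
    obtain ⟨-, ζ, h5, h6⟩ := hk
    refine ⟨fun j => t j.1 j.2.1 j.2.2.1 j.2.2.2, ?_, ?_⟩
    · rw [out_true]
      exact ⟨k, ζ, h5, h6⟩
    · rw [hg]
  · rintro ⟨r, hr, rfl⟩
    rw [out_true] at hr
    obtain ⟨k, ζ, h5, h6⟩ := hr
    refine ⟨k, ?_⟩
    rw [hG, Finset.mem_filter, hg]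
    exact ⟨Finset.mem_univ _, ζ, h5, h6⟩

/-- **Module NetCor (5).**  If `f x = false`, then `P.T y x ζ = 0` for all `ζ`, so by (2) the output
is `false`. -/
theorem no_error (P : Setup D N M p n) (y : Fin M → ZMod p) (x : Fin n → Bool)
    (hx : P.f y x = false) (r : RBit D N p K Q → Bool) :
    P.val y (Nm.out : Nm D N M p n K Q) (Sum.elim x r) = false := by
  rw [← Bool.not_eq_true, out_true]
  rintro ⟨k, ζ, -, h⟩
  have h1 : P.f y x = true := by
    unfold Setup.f
    exact decide_eq_true ⟨ζ, h⟩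
  rw [hx] at h1
  exact Bool.false_ne_true h1

end Pool.Agent.SymRand
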