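import Pool.Agent.Lib.MP_b573ec_lc_SYR.Sel

/-!
# Project SYR, module NetDep: each gate is determined by few gates of smaller rank
-/

namespace Pool.Agent.SymRand

open Pool.Agent

variable {D N M p n K Q : ℕ} [NeZero p]

/-- **Module NetDep (1).**  The gates `dn` and `sl`.

PROOF.  `q = 0`: by `dn_zero`, `sl_zero` the function is constant; `S = {Nm.x ⟨0, hn⟩}` (rank
`0 < 0 + 1`).  `q = q' + 1` (`q' : Fin Q`, `Fin.cases`): by `dn_succ` (`sl_succ`) it is a function of
`dn k X q'`, (`sl k X q' z`) and of the `p` random bits `r (k, X, q', z')`, `z' : Fin p`: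
`S = {Nm.dn k X q'} ∪ univ.image fun z' => Nm.r (k, X, q', z')` (for `sl` also `Nm.sl k X q' z`).
Here `rr ω k X q' z' = P.val y (Nm.r (k, X, q', z')) ω` by definition. -/
theorem dep_sel (P : Setup D N M p n) (y : Fin M → ZMod p) (hn : 0 < n) (k : Fin K)
    (X : Fin D × Fin N) (q : Fin (Q + 1)) :
    (∃ S : Finset (Nm D N M p n K Q), S.Nonempty ∧ S.card ≤ p + 2 ∧
      (∀ u ∈ S, u.rank < (Nm.dn k X q : Nm D N M p n K Q).rank) ∧
      ∀ ω ω', (∀ u ∈ S, P.val y u ω = P.val y u ω') →
        P.val y (Nm.dn k X q) ω = P.val y (Nm.dn k X q) ω') ∧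
    ∀ z, ∃ S : Finset (Nm D N M p n K Q), S.Nonempty ∧ S.card ≤ p + 2 ∧
      (∀ u ∈ S, u.rank < (Nm.sl k X q z : Nm D N M p n K Q).rank) ∧
      ∀ ω ω', (∀ u ∈ S, P.val y u ω = P.val y u ω') →
        P.val y (Nm.sl k X q z) ω = P.val y (Nm.sl k X q z) ω' := by
  classical
  refine Fin.cases ?_ (fun q' => ?_) q
  · refine ⟨⟨{Nm.x ⟨0, hn⟩}, Finset.singleton_nonempty _, ?_, ?_, ?_⟩, fun z =>
      ⟨{Nm.x ⟨0, hn⟩}, Finset.singleton_nonempty _, ?_, ?_, ?_⟩⟩
    · rw [Finset.card_singleton]
      omega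
    · intro u hu
      rw [Finset.mem_singleton.1 hu]
      exact Nat.succ_pos _
    · intro ω ω' _
      exact (dn_zero (rr ω k X)).trans (dn_zero (rr ω' k X)).symm
    · rw [Finset.card_singleton]
      omega
    · intro u hu
      rw [Finset.mem_singleton.1 hu]
      exact Nat.succ_pos _
    · intro ω ω' _
      exact (sl_zero (rr ω k X) z).trans (sl_zero (rr ω' k X) z).symm
  · set R : Finset (Nm D N M p n K Q) := Finset.univ.image fun z' : Fin p => Nm.r (k, X, q', z')
      with hR
    have hRc : R.card ≤ p := Finset.card_image_le.trans (by simp)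
    have hRr : ∀ u ∈ R, u.rank = 0 := by
      intro u hu
      obtain ⟨z', -, rfl⟩ := Finset.mem_image.1 hu
      rfl
    have hRω : ∀ ω ω', (∀ u ∈ R, P.val y u ω = P.val y u ω') → ∀ z',
        rr ω k X q' z' = rr ω' k X q' z' := fun ω ω' h z' =>
      h _ (Finset.mem_image.2 ⟨z', Finset.mem_univ _, rfl⟩)
    refine ⟨⟨insert (Nm.dn k X q'.castSucc) R, Finset.insert_nonempty _ _, ?_, ?_, ?_⟩, fun z =>
      ⟨insert (Nm.sl k X q'.castSucc z) (insert (Nm.dn k X q'.castSucc) R),
        Finset.insert_nonempty _ _, ?_, ?_, ?_⟩⟩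
    · exact (Finset.card_insert_le _ _).trans (by omega)
    · intro u hu
      rcases Finset.mem_insert.1 hu with rfl | hu
      · exact Nat.lt_succ_self _
      · rw [hRr u hu]
        exact Nat.succ_pos _
    · intro ω ω' h
      have h1 : SymRand.dn (rr ω k X) (q' : ℕ) = SymRand.dn (rr ω' k X) (q' : ℕ) :=
        h _ (Finset.mem_insert_self _ _)
      have h2 := hRω ω ω' fun u hu => h u (Finset.mem_insert_of_mem hu)
      change SymRand.dn (rr ω k X) ((q' : ℕ) + 1) = SymRand.dn (rr ω' k X) ((q' : ℕ) + 1)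
      rw [Bool.eq_iff_iff, dn_succ, dn_succ, h1]
      simp only [h2]
    · refine (Finset.card_insert_le _ _).trans ?_
      have := Finset.card_insert_le (Nm.dn k X q'.castSucc) R
      omega
    · intro u hu
      rcases Finset.mem_insert.1 hu with rfl | hu
      · exact Nat.lt_succ_self _
      · rcases Finset.mem_insert.1 hu with rfl | hu
        · exact Nat.lt_succ_self _
        · rw [hRr u hu]
          exact Nat.succ_pos _
    · intro ω ω' h
      have h1 : SymRand.dn (rr ω k X) (q' : ℕ) = SymRand.dn (rr ω' k X) (q' : ℕ) :=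
        h _ (Finset.mem_insert_of_mem (Finset.mem_insert_self _ _))
      have h0 : SymRand.sl (rr ω k X) (q' : ℕ) z = SymRand.sl (rr ω' k X) (q' : ℕ) z :=
        h _ (Finset.mem_insert_self _ _)
      have h2 := hRω ω ω' fun u hu =>
        h u (Finset.mem_insert_of_mem (Finset.mem_insert_of_mem hu))
      change SymRand.sl (rr ω k X) ((q' : ℕ) + 1) z = SymRand.sl (rr ω' k X) ((q' : ℕ) + 1) z
      rw [Bool.eq_iff_iff, sl_succ, sl_succ, h0, h1]
      simp only [h2]

/-- **Module NetDep (2).**  The gates `al`.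

PROOF.  `i = 0`: the function is constant `true`; `S = {Nm.x ⟨0, hn⟩}`.  `i = i' + 1`:
`al k (i' + 1) = al k i' && dn k (finProdFinEquiv.symm i') Q`; `S` consists of these two gates
(ranks `Q + 2 + i'` and `Q + 1`, both `< Q + 2 + (i' + 1)`). -/
theorem dep_al (P : Setup D N M p n) (y : Fin M → ZMod p) (hn : 0 < n) (k : Fin K)
    (i : Fin (D * N + 1)) :
    ∃ S : Finset (Nm D N M p n K Q), S.Nonempty ∧ S.card ≤ 2 ∧
      (∀ u ∈ S, u.rank < (Nm.al k i : Nm D N M p n K Q).rank) ∧
      ∀ ω ω', (∀ u ∈ S, P.val y u ω = P.val y u ω') →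
        P.val y (Nm.al k i) ω = P.val y (Nm.al k i) ω' := by
  classical
  refine Fin.cases ?_ (fun i' => ?_) i
  · refine ⟨{Nm.x ⟨0, hn⟩}, Finset.singleton_nonempty _, ?_, ?_, ?_⟩
    · rw [Finset.card_singleton]
      omega
    · intro u hu
      rw [Finset.mem_singleton.1 hu]
      change 0 < Q + 2 + 0
      omega
    · intro ω ω' _
      have h1 : ∀ ω : Fin n ⊕ RBit D N p K Q → Bool,
          P.val y (Nm.al k 0 : Nm D N M p n K Q) ω = true := by
        intro ω
        change decide (∀ X : Fin D × Fin N, (finProdFinEquiv X : ℕ) < 0 →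
          SymRand.dn (rr ω k X) Q = true) = true
        simp
      rw [h1, h1]
  · refine ⟨{Nm.al k i'.castSucc, Nm.dn k (finProdFinEquiv.symm i') (Fin.last Q)},
      Finset.insert_nonempty _ _, Finset.card_le_two, ?_, ?_⟩
    · intro u hu
      rcases Finset.mem_insert.1 hu with rfl | hu
      · change Q + 2 + (i' : ℕ) < Q + 2 + ((i' : ℕ) + 1)
        omega
      · rw [Finset.mem_singleton.1 hu]
        change Q + 1 < Q + 2 + ((i' : ℕ) + 1)
        omega
    · intro ω ω' h
      have h1 : decide (∀ X : Fin D × Fin N, (finProdFinEquiv X : ℕ) < i' →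
          SymRand.dn (rr ω k X) Q = true) = decide (∀ X : Fin D × Fin N,
          (finProdFinEquiv X : ℕ) < i' → SymRand.dn (rr ω' k X) Q = true) :=
        h _ (Finset.mem_insert_self _ _)
      have h2 : SymRand.dn (rr ω k (finProdFinEquiv.symm i')) Q =
          SymRand.dn (rr ω' k (finProdFinEquiv.symm i')) Q :=
        h _ (Finset.mem_insert_of_mem (Finset.mem_singleton_self _))
      rw [decide_eq_decide] at h1
      have key : ∀ ω : Fin n ⊕ RBit D N p K Q → Bool,
          (∀ X : Fin D × Fin N, (finProdFinEquiv X : ℕ) < (i' : ℕ) + 1 →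
            SymRand.dn (rr ω k X) Q = true) ↔
          (∀ X : Fin D × Fin N, (finProdFinEquiv X : ℕ) < (i' : ℕ) →
            SymRand.dn (rr ω k X) Q = true) ∧
          SymRand.dn (rr ω k (finProdFinEquiv.symm i')) Q = true := by
        intro ω
        constructor
        · intro h
          refine ⟨fun X hX => h X (by omega), h _ ?_⟩
          rw [Equiv.apply_symm_apply]
          omega
        · rintro ⟨h3, h4⟩ X hX
          rcases Nat.lt_succ_iff_lt_or_eq.1 hX with h5 | h5
          · exact h3 X h5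
          · have h6 : X = finProdFinEquiv.symm i' := by
              rw [Equiv.eq_symm_apply]
              exact Fin.ext h5
            rw [h6]
            exact h4
      change decide (∀ X : Fin D × Fin N, (finProdFinEquiv X : ℕ) < (i' : ℕ) + 1 →
          SymRand.dn (rr ω k X) Q = true) = decide (∀ X : Fin D × Fin N,
          (finProdFinEquiv X : ℕ) < (i' : ℕ) + 1 → SymRand.dn (rr ω' k X) Q = true)
      rw [decide_eq_decide, key, key, h1, h2]

/-- **Module NetDep (3).**  The gates `sm`.

PROOF.  Let `A c ω = ∑ c', if c' < c then P.term y ω k c' else 0`.  `c = 0`: `A 0 ω = 0`, the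
function is constant; `S = {Nm.x ⟨0, hn⟩}`.  `c = c' + 1`: `A (c' + 1) ω = A c' ω + P.term y ω k c'`.
`S` consists of the gates `Nm.sm k c' α'` (`α' : ZMod p`), which determine `A c' ω`, the gates
`Nm.x (P.β (c', z, α'))`, which determine `P.num (xx ω) c' z` for all `z`, and the gates
`Nm.sl k (i, P.v c' i) (Fin.last Q) a` (`i : Fin D`, `a : Fin p`); the last two kinds determine
`P.term y ω k c'`.  The card is at most `p + p ^ D * p + D * p`. -/
theorem dep_sm (P : Setup D N M p n) (y : Fin M → ZMod p) (hn : 0 < n) (k : Fin K)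
    (c : Fin (M + 1)) (α : ZMod p) :
    ∃ S : Finset (Nm D N M p n K Q), S.Nonempty ∧ S.card ≤ p + p ^ D * p + D * p ∧
      (∀ u ∈ S, u.rank < (Nm.sm k c α : Nm D N M p n K Q).rank) ∧
      ∀ ω ω', (∀ u ∈ S, P.val y u ω = P.val y u ω') →
        P.val y (Nm.sm k c α) ω = P.val y (Nm.sm k c α) ω' := by
  classical
  refine Fin.cases ?_ (fun c' => ?_) c
  · refine ⟨{Nm.x ⟨0, hn⟩}, Finset.singleton_nonempty _, ?_, ?_, ?_⟩
    · rw [Finset.card_singleton]
      have := Nat.pos_of_ne_zero (NeZero.ne p)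
      omega
    · intro u hu
      rw [Finset.mem_singleton.1 hu]
      change 0 < Q + 2 + 0
      omega
    · intro ω ω' _
      have h1 : ∀ ω : Fin n ⊕ RBit D N p K Q → Bool,
          P.val y (Nm.sm k 0 α : Nm D N M p n K Q) ω = decide ((0 : ZMod p) = α) := by
        intro ω
        change decide ((∑ c' : Fin M, if (c' : ℕ) < 0 then P.term y ω k c' else 0) = α) = _
        simp
      rw [h1, h1]
  · set S1 : Finset (Nm D N M p n K Q) :=
      Finset.univ.image fun α' : ZMod p => Nm.sm k c'.castSucc α' with hS1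
    set S2 : Finset (Nm D N M p n K Q) := Finset.univ.image
      fun q : (Fin D → Fin p) × ZMod p => Nm.x (P.β (c', q.1, q.2)) with hS2
    set S3 : Finset (Nm D N M p n K Q) := Finset.univ.image
      fun q : Fin D × Fin p => Nm.sl k (q.1, P.v c' q.1) (Fin.last Q) q.2 with hS3
    have c1 : S1.card ≤ p := Finset.card_image_le.trans (by simp [ZMod.card])
    have c2 : S2.card ≤ p ^ D * p := Finset.card_image_le.trans (by simp [ZMod.card])
    have c3 : S3.card ≤ D * p := Finset.card_image_le.trans (by simp)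
    refine ⟨S1 ∪ S2 ∪ S3, ?_, ?_, ?_, ?_⟩
    · refine ⟨Nm.sm k c'.castSucc 0, ?_⟩
      exact Finset.mem_union_left _ (Finset.mem_union_left _
        (Finset.mem_image.2 ⟨0, Finset.mem_univ _, rfl⟩))
    · have h1 := Finset.card_union_le (S1 ∪ S2) S3
      have h2 := Finset.card_union_le S1 S2
      omega
    · intro u hu
      rcases Finset.mem_union.1 hu with hu | hu
      · rcases Finset.mem_union.1 hu with hu | hu
        · obtain ⟨α', -, rfl⟩ := Finset.mem_image.1 hu
          change Q + 2 + (c' : ℕ) < Q + 2 + ((c' : ℕ) + 1)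
          omega
        · obtain ⟨α', -, rfl⟩ := Finset.mem_image.1 hu
          change 0 < Q + 2 + ((c' : ℕ) + 1)
          omega
      · obtain ⟨α', -, rfl⟩ := Finset.mem_image.1 hu
        change Q + 1 < Q + 2 + ((c' : ℕ) + 1)
        omega
    · intro ω ω' h
      set B : (Fin n ⊕ RBit D N p K Q → Bool) → ZMod p := fun ω =>
        ∑ c'' : Fin M, if (c'' : ℕ) < (c' : ℕ) then P.term y ω k c'' else 0 with hB
      have h1 : B ω = B ω' := by
        have h2 : decide (B ω = B ω) = decide (B ω' = B ω) :=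
          h (Nm.sm k c'.castSucc (B ω)) (Finset.mem_union_left _ (Finset.mem_union_left _
            (Finset.mem_image.2 ⟨B ω, Finset.mem_univ _, rfl⟩)))
        rw [decide_eq_decide] at h2
        exact (h2.1 rfl).symm
      have h2 : ∀ z, P.num (xx ω) c' z = P.num (xx ω') c' z := by
        intro z
        unfold Setup.num
        refine Finset.sum_congr rfl fun α' _ => ?_
        have h3 : xx ω (P.β (c', z, α')) = xx ω' (P.β (c', z, α')) :=
          h (Nm.x (P.β (c', z, α'))) (Finset.mem_union_left _ (Finset.mem_union_right _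
            (Finset.mem_image.2 ⟨(z, α'), Finset.mem_univ _, rfl⟩)))
        rw [h3]
      have h3 : ∀ (i : Fin D) (a : Fin p), sl (rr ω k (i, P.v c' i)) Q a =
          sl (rr ω' k (i, P.v c' i)) Q a := fun i a =>
        h (Nm.sl k (i, P.v c' i) (Fin.last Q) a) (Finset.mem_union_right _
          (Finset.mem_image.2 ⟨(i, a), Finset.mem_univ _, rfl⟩))
      have h4 : P.term y ω k c' = P.term y ω' k c' := by
        unfold Setup.term
        simp only [h2, h3]
      have key : ∀ ω : Fin n ⊕ RBit D N p K Q → Bool,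
          (∑ c'' : Fin M, if (c'' : ℕ) < (c' : ℕ) + 1 then P.term y ω k c'' else 0) =
            B ω + P.term y ω k c' := by
        intro ω
        have h5 : P.term y ω k c' = ∑ c'' : Fin M, if c'' = c' then P.term y ω k c'' else 0 := by
          rw [Finset.sum_ite_eq' Finset.univ c']
          simp
        rw [h5, hB, ← Finset.sum_add_distrib]
        refine Finset.sum_congr rfl fun c'' _ => ?_
        by_cases h6 : c'' = c'
        · subst h6
          simp
        · have h7 : (c'' : ℕ) ≠ (c' : ℕ) := fun e => h6 (Fin.ext e)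
          by_cases h8 : (c'' : ℕ) < (c' : ℕ)
          · rw [if_pos (by omega), if_pos h8, if_neg h6, add_zero]
          · rw [if_neg (by omega), if_neg h8, if_neg h6, add_zero]
      change decide ((∑ c'' : Fin M, if (c'' : ℕ) < (c' : ℕ) + 1 then P.term y ω k c'' else 0) =
        α) = decide ((∑ c'' : Fin M, if (c'' : ℕ) < (c' : ℕ) + 1 then P.term y ω' k c'' else 0) =
        α)
      rw [key, key, h1, h4]

/-- **Module NetDep (4).**  All gates.

PROOF.  `x`, `r`: input bits.  `dn`, `sl`, `al`, `sm`: (1), (2), (3).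
`ot k`: `S = {Nm.al k (Fin.last _)} ∪ univ.image fun α => Nm.sm k (Fin.last M) α`: the first one
tells whether all `dn (rr ω k X) Q` are `true` (`(finProdFinEquiv X : ℕ) < D * N` always), the
others determine the sum of all terms.
`out`: `S = univ.image fun k => Nm.ot k` (not empty as `1 ≤ K`): `out` is `true` iff some `ot k` is
`true`. -/
theorem val_dep (P : Setup D N M p n) (y : Fin M → ZMod p) (hn : 0 < n) (hK : 1 ≤ K) {w : ℕ}
    (hw : p ^ D * p + (D + 1) * p + K + 2 ≤ w) (v : Nm D N M p n K Q) :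
    (∃ i, ∀ ω, P.val y v ω = ω i) ∨ ∃ S : Finset (Nm D N M p n K Q), S.Nonempty ∧
      S.card ≤ w ∧ (∀ u ∈ S, u.rank < v.rank) ∧
      ∀ ω ω', (∀ u ∈ S, P.val y u ω = P.val y u ω') → P.val y v ω = P.val y v ω' := by
  classical
  have hpw : p ≤ (D + 1) * p := Nat.le_mul_of_pos_left p (Nat.succ_pos D)
  have hDp : (D + 1) * p = D * p + p := by ring
  cases v with
  | x i => exact Or.inl ⟨Sum.inl i, fun ω => rfl⟩
  | r j => exact Or.inl ⟨Sum.inr j, fun ω => rfl⟩
  | dn k X q =>
    obtain ⟨⟨S, h1, h2, h3, h4⟩, -⟩ := dep_sel P y hn k X q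
    exact Or.inr ⟨S, h1, h2.trans (by omega), h3, h4⟩
  | sl k X q z =>
    obtain ⟨-, h⟩ := dep_sel P y hn k X q
    obtain ⟨S, h1, h2, h3, h4⟩ := h z
    exact Or.inr ⟨S, h1, h2.trans (by omega), h3, h4⟩
  | al k i =>
    obtain ⟨S, h1, h2, h3, h4⟩ := dep_al P y hn k i
    exact Or.inr ⟨S, h1, h2.trans (by omega), h3, h4⟩
  | sm k c α =>
    obtain ⟨S, h1, h2, h3, h4⟩ := dep_sm P y hn k c α
    exact Or.inr ⟨S, h1, h2.trans (by omega), h3, h4⟩
  | ot k =>
    set S1 : Finset (Nm D N M p n K Q) :=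
      Finset.univ.image fun α' : ZMod p => Nm.sm k (Fin.last M) α' with hS1
    have c1 : S1.card ≤ p := Finset.card_image_le.trans (by simp [ZMod.card])
    refine Or.inr ⟨insert (Nm.al k (Fin.last _)) S1, Finset.insert_nonempty _ _, ?_, ?_, ?_⟩
    · exact (Finset.card_insert_le _ _).trans (by omega)
    · intro u hu
      rcases Finset.mem_insert.1 hu with rfl | hu
      · change Q + 2 + D * N < Q + 3 + D * N + M
        omega
      · obtain ⟨α', -, rfl⟩ := Finset.mem_image.1 hu
        change Q + 2 + M < Q + 3 + D * N + M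
        omega
    · intro ω ω' h
      have h1 : decide (∀ X : Fin D × Fin N, (finProdFinEquiv X : ℕ) < D * N →
          SymRand.dn (rr ω k X) Q = true) = decide (∀ X : Fin D × Fin N,
          (finProdFinEquiv X : ℕ) < D * N → SymRand.dn (rr ω' k X) Q = true) :=
        h _ (Finset.mem_insert_self _ _)
      rw [decide_eq_decide] at h1
      have h1' : (∀ X : Fin D × Fin N, SymRand.dn (rr ω k X) Q = true) ↔
          ∀ X : Fin D × Fin N, SymRand.dn (rr ω' k X) Q = true :=
        ⟨fun h X => h1.1 (fun X _ => h X) X (Fin.is_lt _),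
          fun h X => h1.2 (fun X _ => h X) X (Fin.is_lt _)⟩
      have key : ∀ ω : Fin n ⊕ RBit D N p K Q → Bool,
          (∑ c'' : Fin M, if (c'' : ℕ) < M then P.term y ω k c'' else 0) =
            ∑ c'', P.term y ω k c'' := fun ω =>
        Finset.sum_congr rfl fun c'' _ => if_pos c''.is_lt
      have h2 : ∑ c'', P.term y ω k c'' = ∑ c'', P.term y ω' k c'' := by
        have h3 : decide ((∑ c'' : Fin M, if (c'' : ℕ) < M then P.term y ω k c'' else 0) =
            ∑ c'', P.term y ω k c'') = decide ((∑ c'' : Fin M, if (c'' : ℕ) < M then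
            P.term y ω' k c'' else 0) = ∑ c'', P.term y ω k c'') :=
          h (Nm.sm k (Fin.last M) (∑ c'', P.term y ω k c'')) (Finset.mem_insert_of_mem
            (Finset.mem_image.2 ⟨_, Finset.mem_univ _, rfl⟩))
        rw [decide_eq_decide, key, key] at h3
        exact (h3.1 rfl).symm
      change decide ((∀ X, SymRand.dn (rr ω k X) Q = true) ∧ ∑ c, P.term y ω k c ≠ 0) =
        decide ((∀ X, SymRand.dn (rr ω' k X) Q = true) ∧ ∑ c, P.term y ω' k c ≠ 0)
      rw [decide_eq_decide, h1', h2]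
  | out =>
    refine Or.inr ⟨Finset.univ.image fun k => Nm.ot k, ⟨Nm.ot ⟨0, hK⟩,
      Finset.mem_image.2 ⟨_, Finset.mem_univ _, rfl⟩⟩, ?_, ?_, ?_⟩
    · refine Finset.card_image_le.trans ?_
      rw [Finset.card_univ, Fintype.card_fin]
      omega
    · intro u hu
      obtain ⟨k, -, rfl⟩ := Finset.mem_image.1 hu
      change Q + 3 + D * N + M < Q + 4 + D * N + M
      omega
    · intro ω ω' h
      have h1 : ∀ k : Fin K, ((∀ X, SymRand.dn (rr ω k X) Q = true) ∧ ∑ c, P.term y ω k c ≠ 0) ↔
          ((∀ X, SymRand.dn (rr ω' k X) Q = true) ∧ ∑ c, P.term y ω' k c ≠ 0) := by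
        intro k
        have h2 : decide ((∀ X, SymRand.dn (rr ω k X) Q = true) ∧ ∑ c, P.term y ω k c ≠ 0) =
            decide ((∀ X, SymRand.dn (rr ω' k X) Q = true) ∧ ∑ c, P.term y ω' k c ≠ 0) :=
          h (Nm.ot k) (Finset.mem_image.2 ⟨k, Finset.mem_univ _, rfl⟩)
        rwa [decide_eq_decide] at h2
      change decide (∃ k : Fin K, (∀ X, SymRand.dn (rr ω k X) Q = true) ∧
        ∑ c, P.term y ω k c ≠ 0) = decide (∃ k : Fin K, (∀ X, SymRand.dn (rr ω' k X) Q = true) ∧
        ∑ c, P.term y ω' k c ≠ 0)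
      rw [decide_eq_decide]
      exact exists_congr h1

end Pool.Agent.SymRand
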