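import Pool.Agent.Lib.MP_b573ec_lc_SYR.Defs2

/-!
# Project SYR, module Sel: choosing one of `p` elements with random bits
-/

namespace Pool.Agent.SymRand

variable {p Q : ℕ}

private theorem Sel_dn (r : Fin Q → Fin p → Bool) (q : ℕ) :
    dn r q = true ↔ ∃ i : Fin Q, (i : ℕ) < q ∧ ∃! z, r i z = true := by
  unfold dn
  simp only [decide_eq_true_eq]

private theorem Sel_sl (r : Fin Q → Fin p → Bool) (q : ℕ) (z : Fin p) :
    sl r q z = true ↔ ∃ i : Fin Q, (i : ℕ) < q ∧ (∃! z', r i z' = true) ∧ r i z = true ∧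
      ∀ i' < i, ¬ ∃! z', r i' z' = true := by
  unfold sl
  simp only [decide_eq_true_eq]

private theorem Sel_perm (π : Equiv.Perm (Fin p)) (s : Fin p → Bool) :
    (∃! z, s (π z) = true) ↔ ∃! z, s z = true := by
  constructor
  · rintro ⟨z, hz, hu⟩
    refine ⟨π z, hz, fun w hw => ?_⟩
    have h1 := hu (π.symm w) (by simpa using hw)
    rw [← h1, Equiv.apply_symm_apply]
  · rintro ⟨z, hz, hu⟩
    refine ⟨π.symm z, by simpa using hz, fun w hw => ?_⟩
    have h1 := hu (π w) hw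
    rw [← h1, Equiv.symm_apply_apply]

/-- **Module Sel (1).**  No try is one of the first `0` tries. -/
theorem dn_zero (r : Fin Q → Fin p → Bool) : dn r 0 = false := by
  rw [← Bool.not_eq_true, Sel_dn]
  rintro ⟨i, hi, -⟩
  exact Nat.not_lt_zero _ hi

/-- **Module Sel (2).**  The tries `< q + 1` are the tries `< q` and the try `q`. -/
theorem dn_succ (r : Fin Q → Fin p → Bool) (q : Fin Q) :
    dn r (q + 1) = true ↔ dn r q = true ∨ ∃! z, r q z = true := by
  rw [Sel_dn, Sel_dn]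
  constructor
  · rintro ⟨i, hi, h⟩
    by_cases hq : (i : ℕ) < q
    · exact Or.inl ⟨i, hq, h⟩
    · have hiq : i = q := Fin.ext (by omega)
      rw [← hiq]
      exact Or.inr h
  · rintro (⟨i, hi, h⟩ | h)
    · exact ⟨i, by omega, h⟩
    · exact ⟨q, by omega, h⟩

/-- **Module Sel (3).** -/
theorem sl_zero (r : Fin Q → Fin p → Bool) (z : Fin p) : sl r 0 z = false := by
  rw [← Bool.not_eq_true, Sel_sl]
  rintro ⟨i, hi, -⟩
  exact Nat.not_lt_zero _ hi

/-- **Module Sel (4).**  For the try `q` itself: no earlier try `i' < q` has exactly one `true` iff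
`dn r q = false`. -/
theorem sl_succ (r : Fin Q → Fin p → Bool) (q : Fin Q) (z : Fin p) :
    sl r (q + 1) z = true ↔
      sl r q z = true ∨ (dn r q = false ∧ (∃! z', r q z' = true) ∧ r q z = true) := by
  have hd : dn r q = false ↔ ∀ i' < q, ¬ ∃! z', r i' z' = true := by
    rw [← Bool.not_eq_true, Sel_dn]
    constructor
    · intro h i' hi' h'
      exact h ⟨i', hi', h'⟩
    · rintro h ⟨i', hi', h'⟩
      exact h i' (Fin.lt_def.2 hi') h'
  rw [Sel_sl, Sel_sl, hd]
  constructor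
  · rintro ⟨i, hi, h1, h2, h3⟩
    by_cases hq : (i : ℕ) < q
    · exact Or.inl ⟨i, hq, h1, h2, h3⟩
    · have hiq : i = q := Fin.ext (by omega)
      rw [hiq] at h1 h2 h3
      exact Or.inr ⟨h3, h1, h2⟩
  · rintro (⟨i, hi, h⟩ | ⟨h3, h1, h2⟩)
    · exact ⟨i, by omega, h⟩
    · exact ⟨q, by omega, h1, h2, h3⟩

/-- **Module Sel (5).**  A permutation of `Fin p` does not change whether a try has exactly one
`true`. -/
theorem dn_perm (π : Equiv.Perm (Fin p)) (r : Fin Q → Fin p → Bool) (q : ℕ) :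
    dn (fun i z => r i (π z)) q = dn r q := by
  rw [Bool.eq_iff_iff, Sel_dn, Sel_dn]
  refine exists_congr fun i => and_congr_right fun _ => ?_
  exact Sel_perm π (r i)

/-- **Module Sel (6).** -/
theorem sl_perm (π : Equiv.Perm (Fin p)) (r : Fin Q → Fin p → Bool) (q : ℕ) (z : Fin p) :
    sl (fun i z => r i (π z)) q z = sl r q (π z) := by
  rw [Bool.eq_iff_iff, Sel_sl, Sel_sl]
  refine exists_congr fun i => and_congr_right fun _ => ?_
  refine and_congr (Sel_perm π (r i)) (and_congr_right fun _ => ?_)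
  exact forall_congr' fun i' => imp_congr_right fun _ => not_congr (Sel_perm π (r i'))

/-- **Module Sel (7).**  Take the smallest try with exactly one `true`
(`Finset.exists_min_image`, `Fin` is well-founded, or `Nat.find`); two tries which are both
minimal are equal. -/
theorem sl_unique (r : Fin Q → Fin p → Bool) (q : ℕ) (h : dn r q = true) :
    ∃! z, sl r q z = true := by
  obtain ⟨i₁, hi₁, h₁⟩ := (Sel_dn r q).1 h
  obtain ⟨i₀, h₀, hmin⟩ := (wellFounded_lt (α := Fin Q)).has_min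
    {i | ∃! z, r i z = true} ⟨i₁, h₁⟩
  have hle : i₀ ≤ i₁ := not_lt.1 (hmin i₁ h₁)
  obtain ⟨z₀, hz₀, hu₀⟩ := h₀
  refine ⟨z₀, ?_, fun z hz => ?_⟩
  · exact (Sel_sl r q z₀).2 ⟨i₀, lt_of_le_of_lt (Fin.le_def.1 hle) hi₁, ⟨z₀, hz₀, hu₀⟩, hz₀,
      fun i' hi' h' => hmin i' h' hi'⟩
  · obtain ⟨i, hi, h1, h2, h3⟩ := (Sel_sl r q z).1 hz
    have hii : i = i₀ := by
      rcases lt_trichotomy i i₀ with hlt | heq | hgt
      · exact absurd hlt (hmin i h1)
      · exact heq
      · exact absurd ⟨z₀, hz₀, hu₀⟩ (h3 i₀ hgt)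
    rw [hii] at h2
    exact hu₀ z h2

/-- **Module Sel (8).** -/
theorem dn_of_sl (r : Fin Q → Fin p → Bool) (q : ℕ) (z : Fin p) (h : sl r q z = true) :
    dn r q = true := by
  obtain ⟨i, hi, h1, -⟩ := (Sel_sl r q z).1 h
  exact (Sel_dn r q).2 ⟨i, hi, h1⟩

end Pool.Agent.SymRand
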