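import Pool.Agent.Lib.MP_b573ec_lc_SYR.InstV
import Pool.Agent.Lib.MP_b573ec_lc_SYR.Sel

/-!
# Project SYR, module NetImg: the functions of the gates have few images
-/

namespace Pool.Agent.SymRand

open Pool.Agent

variable {D N M p n K Q : ℕ}

/-- **Module NetImg (1).**  By `rr_act` and `dn_perm` (with the permutation
`(σ (P.bl X)).symm`). -/
theorem dn_act (P : Setup D N M p n) (σ : Fin n → alternatingGroup (Fin p))
    (ω : Fin n ⊕ RBit D N p K Q → Bool) (k : Fin K) (X : Fin D × Fin N) (q : ℕ) :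
    dn (rr (act (joint P.rho (P.rhoR K Q)) σ ω) k X) q = dn (rr ω k X) q := by
  rw [rr_act]
  exact dn_perm (σ (P.bl X) : Equiv.Perm (Fin p)).symm (rr ω k X) q

/-- **Module NetImg (2).**  By `rr_act` and `sl_perm`. -/
theorem sl_act (P : Setup D N M p n) (σ : Fin n → alternatingGroup (Fin p))
    (ω : Fin n ⊕ RBit D N p K Q → Bool) (k : Fin K) (X : Fin D × Fin N) (q : ℕ) (z : Fin p) :
    sl (rr (act (joint P.rho (P.rhoR K Q)) σ ω) k X) q z =
      sl (rr ω k X) q ((σ (P.bl X) : Equiv.Perm (Fin p)).symm z) := by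
  rw [rr_act]
  exact sl_perm (σ (P.bl X) : Equiv.Perm (Fin p)).symm (rr ω k X) q z

variable [NeZero p]

/-- **Module NetImg (3).**  By (2), `xx_act` and `num_act`, with the substitution
`z ↦ fun i => (σ (P.bl (i, P.v c i))).symm (z i)` in the sum over all `z : Fin D → Fin p`
(`Fintype.sum_equiv` with `Equiv.piCongrRight`). -/
theorem term_act (P : Setup D N M p n) (y : Fin M → ZMod p)
    (σ : Fin n → alternatingGroup (Fin p)) (ω : Fin n ⊕ RBit D N p K Q → Bool) (k : Fin K)
    (c : Fin M) :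
    P.term y (act (joint P.rho (P.rhoR K Q)) σ ω) k c = P.term y ω k c := by
  unfold Setup.term
  congr 1
  refine Fintype.sum_equiv (Equiv.piCongrRight fun i =>
    (σ (P.bl (i, P.v c i)) : Equiv.Perm (Fin p)).symm) _ _ fun z => ?_
  rw [xx_act, num_act]
  simp only [sl_act]
  rfl

private theorem NetImg_sub {Γ I V α : Type} [Group Γ] [Fintype α] {ρ : Γ →* Equiv.Perm I}
    {f : (I → Bool) → V} (F : α → (I → Bool) → V)
    (h : ∀ σ, ∃ a, (fun x => f (act ρ σ x)) = F a) :
    (images ρ f).ncard ≤ Fintype.card α := by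
  classical
  have h1 : images ρ f ⊆ ((Finset.univ.image F : Finset ((I → Bool) → V)) :
      Set ((I → Bool) → V)) := by
    rintro g ⟨σ, rfl⟩
    obtain ⟨a, ha⟩ := h σ
    rw [ha]
    simp
  refine (Set.ncard_le_ncard h1 (Finset.finite_toSet _)).trans ?_
  rw [Set.ncard_coe_finset]
  exact Finset.card_image_le

private theorem NetImg_inv {Γ I V : Type} [Group Γ] {ρ : Γ →* Equiv.Perm I}
    {f : (I → Bool) → V} (h : ∀ σ x, f (act ρ σ x) = f x) : (images ρ f).ncard ≤ 1 := by
  have h1 := NetImg_sub (α := Unit) (ρ := ρ) (f := f) (fun _ => f)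
    fun σ => ⟨(), funext (h σ)⟩
  simpa using h1

/-- **Module NetImg (4).**

PROOF.  Case distinction.  `dn`, `al`, `sm`, `ot`, `out`: the function is invariant by (1) and (3),
so the set of its images is a singleton and `1 ≤ p ^ D`.
`x i`: if `i` is not in the range of `P.β`, the function is invariant (`joint_inl`, `rho_inv_out`);
if `i = P.β (c, z, α)`, then by `joint_inl` and `rho_inv_β` all images are among the functions
`ω ↦ ω (inl (P.β (c, z', α)))`, `z' : Fin D → Fin p`, at most `p ^ D`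
(`Set.ncard_le_ncard` into `Set.range`, `Set.ncard_range_le` or the card of
`Finset.univ.image`).
`r (k, X, q, z)`: by `joint_inr` all images are among the functions `ω ↦ ω (inr (k, X, q, z'))`,
`z' : Fin p`; at most `p ≤ p ^ D`.  `sl k X q z`: by (2) they are among
`ω ↦ sl (rr ω k X) q z'`, `z' : Fin p`. -/
theorem images_le (P : Setup D N M p n) (y : Fin M → ZMod p) (hD : 1 ≤ D)
    (v : Nm D N M p n K Q) :
    (images (joint P.rho (P.rhoR K Q)) (P.val y v)).ncard ≤ p ^ D := by
  have hp : 0 < p := Nat.pos_of_ne_zero (NeZero.ne p)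
  have h1 : 1 ≤ p ^ D := Nat.one_le_pow _ _ hp
  have hpD : Fintype.card (Fin p) ≤ p ^ D := by
    rw [Fintype.card_fin]
    calc p = p ^ 1 := (pow_one p).symm
      _ ≤ p ^ D := Nat.pow_le_pow_right hp hD
  cases v with
  | x i =>
    by_cases hi : i ∈ Set.range P.β
    · obtain ⟨⟨c, z, α⟩, rfl⟩ := hi
      have hc : Fintype.card (Fin D → Fin p) = p ^ D := by simp
      rw [← hc]
      refine NetImg_sub (fun z' ω => ω (Sum.inl (P.β (c, z', α)))) fun σ => ?_
      refine ⟨fun i => (σ (P.bl (i, P.v c i)) : Equiv.Perm (Fin p)).symm (z i), ?_⟩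
      funext ω
      change ω ((joint P.rho (P.rhoR K Q) σ)⁻¹ (Sum.inl (P.β (c, z, α)))) = _
      rw [joint_inl, rho_inv_β]
    · refine (NetImg_inv fun σ ω => ?_).trans h1
      change ω ((joint P.rho (P.rhoR K Q) σ)⁻¹ (Sum.inl i)) = ω (Sum.inl i)
      rw [joint_inl, rho_inv_out P σ i hi]
  | r j =>
    obtain ⟨k, X, q, z⟩ := j
    refine (NetImg_sub (fun z' ω => ω (Sum.inr (k, X, q, z'))) fun σ => ?_).trans hpD
    refine ⟨(σ (P.bl X) : Equiv.Perm (Fin p)).symm z, ?_⟩
    funext ω
    change ω ((joint P.rho (P.rhoR K Q) σ)⁻¹ (Sum.inr (k, X, q, z))) = _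
    rw [joint_inr]
    rfl
  | dn k X q =>
    exact (NetImg_inv fun σ ω => dn_act P σ ω k X q).trans h1
  | sl k X q z =>
    refine (NetImg_sub (fun z' ω => sl (rr ω k X) q z') fun σ => ?_).trans hpD
    exact ⟨(σ (P.bl X) : Equiv.Perm (Fin p)).symm z, funext fun ω => sl_act P σ ω k X q z⟩
  | al k i =>
    refine (NetImg_inv fun σ ω => ?_).trans h1
    simp only [Setup.val, dn_act]
  | sm k c α =>
    refine (NetImg_inv fun σ ω => ?_).trans h1
    simp only [Setup.val, term_act]
  | ot k =>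
    refine (NetImg_inv fun σ ω => ?_).trans h1
    simp only [Setup.val, dn_act, term_act]
  | out =>
    refine (NetImg_inv fun σ ω => ?_).trans h1
    simp only [Setup.val, dn_act, term_act]

end Pool.Agent.SymRand
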