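import Pool.Agent.Lib.MP_b573ec_lc_SYR.Bc
import Pool.Agent.Lib.MP_b573ec_lc_SYR.NetImg
import Pool.Agent.Lib.MP_b573ec_lc_SYR.NetDep
import Pool.Agent.Lib.MP_b573ec_lc_SYR.NetCor

/-!
# Project SYR, module Up: the randomized circuit
-/

namespace Pool.Agent.SymRand

open Pool.Agent

variable {D N M p n K Q : ℕ}

/-- The names of the gates as a sum of finite types. -/
private def Up_equiv : Nm D N M p n K Q ≃
    Fin n ⊕ RBit D N p K Q ⊕ (Fin K × (Fin D × Fin N) × Fin (Q + 1)) ⊕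
      (Fin K × (Fin D × Fin N) × Fin (Q + 1) × Fin p) ⊕ (Fin K × Fin (D * N + 1)) ⊕
      (Fin K × Fin (M + 1) × ZMod p) ⊕ Fin K ⊕ Unit where
  toFun
    | .x i => .inl i
    | .r j => .inr (.inl j)
    | .dn k X q => .inr (.inr (.inl (k, X, q)))
    | .sl k X q z => .inr (.inr (.inr (.inl (k, X, q, z))))
    | .al k i => .inr (.inr (.inr (.inr (.inl (k, i)))))
    | .sm k c α => .inr (.inr (.inr (.inr (.inr (.inl (k, c, α))))))
    | .ot k => .inr (.inr (.inr (.inr (.inr (.inr (.inl k))))))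
    | .out => .inr (.inr (.inr (.inr (.inr (.inr (.inr ()))))))
  invFun
    | .inl i => .x i
    | .inr (.inl j) => .r j
    | .inr (.inr (.inl (k, X, q))) => .dn k X q
    | .inr (.inr (.inr (.inl (k, X, q, z)))) => .sl k X q z
    | .inr (.inr (.inr (.inr (.inl (k, i))))) => .al k i
    | .inr (.inr (.inr (.inr (.inr (.inl (k, c, α)))))) => .sm k c α
    | .inr (.inr (.inr (.inr (.inr (.inr (.inl k)))))) => .ot k
    | .inr (.inr (.inr (.inr (.inr (.inr (.inr ())))))) => .out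
  left_inv v := by cases v <;> rfl
  right_inv v := by
    rcases v with i | j | ⟨k, X, q⟩ | ⟨k, X, q, z⟩ | ⟨k, i⟩ | ⟨k, c, α⟩ | k | ⟨⟩ <;> rfl

/-- **Module Up (1).**  The number of the gates: `Nm` is equivalent to the sum of
`Fin n`, `RBit D N p K Q`, `Fin K × (Fin D × Fin N) × Fin (Q + 1)`,
`Fin K × (Fin D × Fin N) × Fin (Q + 1) × Fin p`, `Fin K × Fin (D * N + 1)`,
`Fin K × Fin (M + 1) × ZMod p`, `Fin K`, `Unit`. -/
theorem card_Nm [NeZero p] : ∃ _ : Fintype (Nm D N M p n K Q),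
    Fintype.card (Nm D N M p n K Q) = n + K * (D * N * (Q * p)) + K * (D * N * (Q + 1)) +
      K * (D * N * ((Q + 1) * p)) + K * (D * N + 1) + K * ((M + 1) * p) + K + 1 := by
  refine ⟨Fintype.ofEquiv _ (Up_equiv (D := D) (N := N) (M := M) (p := p) (n := n) (K := K)
    (Q := Q)).symm, ?_⟩
  rw [Fintype.ofEquiv_card]
  simp only [Fintype.card_sum, Fintype.card_prod, Fintype.card_fin, ZMod.card,
    Fintype.card_unit]
  ring

/-- **Module Up (2).**

PROOF.  `K = 2 * p ^ D`, `J = RBit D N p K Q`, `ρ' = P.rhoR K Q`, `Fintype` instance on `Nm` from (1);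
the circuit from `exists_circuit` (`rank = Nm.rank`, `val = P.val y`, `out = Nm.out`,
`val_dep`).  Images: `images_le` (each `D.gateFun v` is some `P.val y v'`).  Acceptance: `half`,
`no_error`.  `Fintype.card J = K * (D * N * (Q * p)) ≤ s`. -/
theorem one_sided [NeZero p] (hD : 1 ≤ D) (hn : 0 < n) (P : Setup D N M p n)
    (y : Fin M → ZMod p) (hQ : 2 * (D * N) * (2 ^ p - p) ^ Q ≤ 2 ^ (p * Q))
    (hK : K = 2 * p ^ D) {s w : ℕ} (hw : p ^ D * p + (D + 1) * p + K + 2 ≤ w)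
    (hs : n + K * (D * N * (Q * p)) + K * (D * N * (Q + 1)) +
      K * (D * N * ((Q + 1) * p)) + K * (D * N + 1) + K * ((M + 1) * p) + K + 1 ≤ s) :
    OneSided P.rho (P.f y) s w (p ^ D) := by
  subst hK
  have hp : 0 < p := Nat.pos_of_ne_zero (NeZero.ne p)
  have hK1 : 1 ≤ 2 * p ^ D := by
    have := Nat.one_le_pow D p hp
    omega
  obtain ⟨inst, hcard⟩ := card_Nm (D := D) (N := N) (M := M) (p := p) (n := n)
    (K := 2 * p ^ D) (Q := Q)
  obtain ⟨C, hC1, hC2⟩ := exists_circuit (I := Fin n ⊕ RBit D N p (2 * p ^ D) Q)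
    (V := Nm D N M p n (2 * p ^ D) Q) (w := w) Nm.rank (P.val y) Nm.out
    fun v => val_dep P y hn hK1 hw v
  have hJ : Fintype.card (RBit D N p (2 * p ^ D) Q) =
      2 * p ^ D * (D * N * (Q * p)) := by
    simp only [Fintype.card_prod, Fintype.card_fin]
  refine ⟨RBit D N p (2 * p ^ D) Q, inferInstance, P.rhoR (2 * p ^ D) Q, _, C, ?_, ?_, ?_, ?_⟩
  · rw [hcard]
    exact hs
  · rw [hJ]
    omega
  · intro v
    obtain ⟨v', hv'⟩ := hC1 v
    rw [hv']
    exact images_le P y hD v'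
  · intro x
    rw [hC2]
    refine ⟨fun hx => ?_, fun hx r => ?_⟩
    · exact half P y hQ x hx
    · exact no_error P y x hx r

end Pool.Agent.SymRand
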