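import Pool.Agent.Lib.MP_b573ec_lc_SYR.Kern
import Pool.Agent.Lib.MP_b573ec_lc_SYR.LowR
import Pool.Agent.Lib.MP_b573ec_lc_SYR.Up
import Pool.Agent.Lib.MP_b573ec_lc_SYR.Par

/-!
# Project SYR, module Main: assembly
-/

namespace Pool.Agent.SymRand

open Pool.Agent

/-- Monotonicity of the bounds. -/
theorem OneSided.mono {Γ I : Type} [Group Γ] {ρ : Γ →* Equiv.Perm I} {f : (I → Bool) → Bool}
    {s s' w K K' : ℕ} (h : OneSided ρ f s w K) (hs : s ≤ s') (hK : K ≤ K') :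
    OneSided ρ f s' w K' := by
  obtain ⟨J, i, ρ', s0, D, h1, h2, h3, h4⟩ := h
  exact ⟨J, i, ρ', s0, D, h1.trans hs, h2.trans hs, fun v => (h3 v).trans hK, h4⟩

/-- **The theorem.** -/
theorem main (p : ℕ) [Fact p.Prime] (hp : 5 ≤ p) : ∃ C : ℕ, ∀ n : ℕ, C ≤ n →
    ∃ (ρ : (Fin n → alternatingGroup (Fin p)) →* Equiv.Perm (Fin n))
      (f : (Fin n → Bool) → Bool) (x₁ x₀ : Fin n → Bool),
      OneSided ρ f (C * (n * (Nat.log 2 n + 1))) C C ∧
      (∀ σ x, f (act ρ σ x) = f x) ∧ f x₁ = true ∧ f x₀ = false ∧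
      ∀ t r ℓ s : ℕ, 1 ≤ t → p.Coprime ℓ → C * t * r ≤ n → ∀ D : RCircuit (Fin n) s t ℓ,
        (∀ i, (images ρ (D.gateFun i)).ncard < p ^ r) → ∀ y : ℝ,
          {σ | D.gateFun D.out (act ρ σ x₁) = y}.ncard =
            {σ | D.gateFun D.out (act ρ σ x₀) = y}.ncard := by
  have hpr : p.Prime := Fact.out
  have hodd : Odd p := hpr.odd_of_ne_two (by omega)
  obtain ⟨C1, hC1, hset⟩ := exists_setup p
  obtain ⟨C2, hsize⟩ := size_le p
  obtain ⟨w, hw⟩ : ∃ w : ℕ, w = p ^ 5 * p + (5 + 1) * p + 2 * p ^ 5 + 2 := ⟨_, rfl⟩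
  obtain ⟨C, hC⟩ : ∃ C : ℕ, C = 10 * C1 + C2 + w + p ^ 5 := ⟨_, rfl⟩
  refine ⟨C, fun n hn => ?_⟩
  obtain ⟨N, s1, P, hN, h10, hs1, hexp⟩ := hset n (by omega)
  obtain ⟨y, b, hy, hb⟩ := exists_kernel (p := p) P.v (by omega)
  obtain ⟨K, hK⟩ : ∃ K : ℕ, K = 2 * p ^ 5 := ⟨_, rfl⟩
  obtain ⟨Q, hQ⟩ : ∃ Q : ℕ, Q = 2 ^ p * (Nat.log 2 (2 * (5 * N)) + 1) := ⟨_, rfl⟩
  have hs10 : 10 ≤ s1 := by
    by_contra hlt
    have h1 : C1 * s1 ≤ C1 * 9 := Nat.mul_le_mul_left _ (by omega)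
    omega
  refine ⟨P.rho, P.f y, P.inst b, P.inst 0, ?_, fun σ x => f_act P y σ x,
    (f_inst P y b hy hb).1, (f_inst P y b hy hb).2, ?_⟩
  · have h1 := hsize n N K Q hN h10 hK hQ
    have h2 : OneSided P.rho (P.f y) (C2 * (n * (Nat.log 2 n + 1))) C (p ^ 5) := by
      refine one_sided (K := K) (Q := Q) (by norm_num) (by omega) P y ?_ hK (by omega) h1
      rw [hQ]
      exact tries (by omega) (5 * N)
    exact h2.mono (Nat.mul_le_mul_right _ (by omega)) (by omega)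
  · intro t r ℓ s ht hpl htr D hD z
    refine low hodd hp P b (by omega) hexp ht hpl ?_ D hD z
    have h1 : 10 * (t * r) ≤ s1 := by
      by_contra hlt
      push Not at hlt
      have h2 : C1 * (s1 + 1) ≤ C1 * (10 * (t * r)) := Nat.mul_le_mul_left _ hlt
      have h3 : 10 * C1 * (t * r) ≤ C * (t * r) := Nat.mul_le_mul_right _ (by omega)
      have h4 : C * t * r = C * (t * r) := by ring
      have h5 : C1 * (10 * (t * r)) = 10 * C1 * (t * r) := by ring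
      have h6 : C1 * (s1 + 1) = C1 * s1 + C1 := by ring
      omega
    have h2 : 4 * t * r = 4 * (t * r) := by ring
    omega

end Pool.Agent.SymRand
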