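import Pool.Agent.Lib.MP_b573ec_lc_SYR.Defs2

/-!
# Project SYR, module Act0: the actions
-/

namespace Pool.Agent.SymRand

open Pool.Agent

variable {Γ I J : Type} [Group Γ]

/-- **Module Act0 (1).** -/
theorem act_one (ρ : Γ →* Equiv.Perm I) (x : I → Bool) : act ρ 1 x = x := by
  funext i
  unfold act
  rw [map_one, inv_one]
  rfl

/-- **Module Act0 (2).** -/
theorem act_mul (ρ : Γ →* Equiv.Perm I) (σ τ : Γ) (x : I → Bool) :
    act ρ (σ * τ) x = act ρ σ (act ρ τ x) := by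
  funext i
  unfold act
  rw [map_mul, mul_inv_rev]
  rfl

/-- **Module Act0 (3).** -/
theorem joint_inl (ρ : Γ →* Equiv.Perm I) (ρ' : Γ →* Equiv.Perm J) (σ : Γ) (i : I) :
    (joint ρ ρ' σ)⁻¹ (Sum.inl i) = Sum.inl ((ρ σ)⁻¹ i) := by
  rfl

/-- **Module Act0 (4).** -/
theorem joint_inr (ρ : Γ →* Equiv.Perm I) (ρ' : Γ →* Equiv.Perm J) (σ : Γ) (j : J) :
    (joint ρ ρ' σ)⁻¹ (Sum.inr j) = Sum.inr ((ρ' σ)⁻¹ j) := by
  rfl

variable {D N M p n K Q : ℕ}

/-- **Module Act0 (5).**  `Equiv.Perm.viaEmbedding_apply`; the inverse permutation is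
`P.rho σ⁻¹`, or verify that `P.rho σ` maps the right-hand side to `P.β (c, z, α)`
(`Equiv.Perm.inv_eq_iff_eq`). -/
theorem rho_inv_β (P : Setup D N M p n) (σ : Fin n → alternatingGroup (Fin p)) (c : Fin M)
    (z : Fin D → Fin p) (α : ZMod p) :
    (P.rho σ)⁻¹ (P.β (c, z, α)) =
      P.β (c, fun i => (σ (P.bl (i, P.v c i)) : Equiv.Perm (Fin p)).symm (z i), α) := by
  rw [← map_inv]
  have h1 : P.rho σ⁻¹ (P.β (c, z, α)) = P.β (P.permIdx σ⁻¹ (c, z, α)) :=
    Equiv.Perm.viaEmbedding_apply _ _ _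
  rw [h1]
  rfl

/-- **Module Act0 (6).**  `Equiv.Perm.viaEmbedding_apply_of_notMem`. -/
theorem rho_inv_out (P : Setup D N M p n) (σ : Fin n → alternatingGroup (Fin p)) (k : Fin n)
    (hk : k ∉ Set.range P.β) : (P.rho σ)⁻¹ k = k := by
  rw [← map_inv]
  exact Equiv.Perm.viaEmbedding_apply_of_notMem _ _ _ hk

/-- **Module Act0 (7).**  From (3). -/
theorem xx_act (P : Setup D N M p n) (σ : Fin n → alternatingGroup (Fin p))
    (ω : Fin n ⊕ RBit D N p K Q → Bool) :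
    xx (act (joint P.rho (P.rhoR K Q)) σ ω) = act P.rho σ (xx ω) := by
  rfl

/-- **Module Act0 (8).**  From (4). -/
theorem rr_act (P : Setup D N M p n) (σ : Fin n → alternatingGroup (Fin p))
    (ω : Fin n ⊕ RBit D N p K Q → Bool) (k : Fin K) (X : Fin D × Fin N) :
    rr (act (joint P.rho (P.rhoR K Q)) σ ω) k X =
      fun q z => rr ω k X q ((σ (P.bl X) : Equiv.Perm (Fin p)).symm z) := by
  rfl

end Pool.Agent.SymRand
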