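import Pool.Agent.Lib.MP_b573ec_lc_SYR.Defs

/-!
# Project SYR, module Bc: circuits from named gates
-/

namespace Pool.Agent.SymRand

/-- **Module Bc (1).**  Number a finite set such that the rank does not decrease.

PROOF.  For instance: `Fintype.equivFin V` gives `e0 : V ≃ Fin (card V)`; `v ↦ toLex (rank v, e0 v)`
is an injective map into the linear order `ℕ ×ₗ Fin (card V)`; lift the linear order
(`LinearOrder.lift'`) and use `Fintype.orderIsoFinOfCardEq` (or
`monoEquivOfFin`); `rank u < rank v` implies `toLex (rank u, _) < toLex (rank v, _)`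
(`Prod.Lex.toLex_lt_toLex`). -/
theorem exists_sort {V : Type} [Fintype V] (rank : V → ℕ) :
    ∃ e : V ≃ Fin (Fintype.card V), ∀ u v, rank u < rank v → e u < e v := by
  classical
  let e0 := Fintype.equivFin V
  let f : V → ℕ ×ₗ Fin (Fintype.card V) := fun v => toLex (rank v, e0 v)
  have hf : Function.Injective f := by
    intro a b hab
    have h1 : (rank a, e0 a) = (rank b, e0 b) := toLex.injective hab
    exact e0.injective (Prod.ext_iff.1 h1).2
  let _ : LinearOrder V := LinearOrder.lift' f hf
  let e : Fin (Fintype.card V) ≃o V := monoEquivOfFin V rfl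
  refine ⟨e.symm.toEquiv, fun u v h => ?_⟩
  have h1 : u < v := by
    show f u < f v
    exact Prod.Lex.toLex_lt_toLex.2 (Or.inl h)
  exact e.symm.lt_iff_lt.2 h1

/-- **Module Bc (2).**  A family of functions `val v`, `v ∈ V`, each of which is an input bit or is
determined by at most `w` functions of smaller rank, is computed by a circuit.

PROOF.  `e` from (1).  For the second alternative choose `S` and a map `a : Fin w → V` with range
`S` (`S` is not empty and `S.card ≤ w`, so there is a surjection `Fin w → S`); the gate number `e v`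
reads the gates `e (a i)` and applies
`g bb = if h : ∃ x, ∀ i, val (a i) x = bb i then val v h.choose else false`
(classical).  For the first alternative the gate is `Sum.inl i`.  `lt`: `rank (a i) < rank v`.
Then `fun i => val (e.symm i) x` satisfies the equations of the circuit on the input `x`: for
`bb = fun i => val (a i) x` the chosen `x'` satisfies `val u x' = val u x` for all `u ∈ S`, so
`g bb = val v x`.  By `BCircuit.eval_unique` and `(D.exists_eval x).choose_spec`,
`D.gateFun i = val (e.symm i)`.  `out := e out`. -/
theorem exists_circuit {I V : Type} [Fintype V] {w : ℕ} (rank : V → ℕ)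
    (val : V → (I → Bool) → Bool) (out : V)
    (h : ∀ v, (∃ i, ∀ x, val v x = x i) ∨ ∃ S : Finset V, S.Nonempty ∧ S.card ≤ w ∧
      (∀ u ∈ S, rank u < rank v) ∧
      ∀ x x', (∀ u ∈ S, val u x = val u x') → val v x = val v x') :
    ∃ D : BCircuit I (Fintype.card V) w, (∀ i, ∃ v, D.gateFun i = val v) ∧
      D.gateFun D.out = val out := by
  classical
  obtain ⟨e, he⟩ := exists_sort rank
  have key : ∀ v, ∃ G : I ⊕ ((Fin w → Fin (Fintype.card V)) × ((Fin w → Bool) → Bool)),
      (∀ a g, G = Sum.inr (a, g) → ∀ i, a i < e v) ∧
      ∀ x : I → Bool, (∀ i, G = Sum.inl i → val v x = x i) ∧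
        ∀ a g, G = Sum.inr (a, g) → val v x = g fun i => val (e.symm (a i)) x := by
    intro v
    rcases h v with ⟨i, hi⟩ | ⟨S, hne, hcard, hrank, hdet⟩
    · refine ⟨Sum.inl i, fun _ _ h => by simp at h, fun x => ⟨fun j hj => ?_, fun _ _ h => ?_⟩⟩
      · rw [← Sum.inl.inj hj]
        exact hi x
      · simp at h
    · obtain ⟨a, ha, ha'⟩ : ∃ a : Fin w → V, (∀ i, a i ∈ S) ∧ ∀ u ∈ S, ∃ i, a i = u := by
        refine ⟨fun i => if h : i.1 < S.card then (S.equivFin.symm ⟨i.1, h⟩ : V)
          else hne.choose, ?_, ?_⟩
        · intro i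
          by_cases h : i.1 < S.card
          · simp only [h, dite_true]
            exact (S.equivFin.symm ⟨i.1, h⟩).2
          · simp only [h, dite_false]
            exact hne.choose_spec
        · intro u hu
          refine ⟨⟨(S.equivFin ⟨u, hu⟩).1, (S.equivFin ⟨u, hu⟩).2.trans_le hcard⟩, ?_⟩
          have h1 := (S.equivFin ⟨u, hu⟩).2
          simp only [h1, dite_true]
          rw [show (⟨(S.equivFin ⟨u, hu⟩).1, h1⟩ : Fin S.card) = S.equivFin ⟨u, hu⟩ from rfl,
            Equiv.symm_apply_apply]
      refine ⟨Sum.inr (fun i => e (a i), fun bb =>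
        if hh : ∃ x, ∀ i, val (a i) x = bb i then val v hh.choose else false), ?_, ?_⟩
      · intro a' g' hG i
        obtain ⟨rfl, rfl⟩ := Prod.mk.inj (Sum.inr.inj hG)
        exact he _ _ (hrank _ (ha i))
      · intro x
        refine ⟨fun _ h => by simp at h, fun a' g' hG => ?_⟩
        obtain ⟨rfl, rfl⟩ := Prod.mk.inj (Sum.inr.inj hG)
        show val v x = if hh : ∃ x', ∀ i, val (a i) x' = val (e.symm (e (a i))) x then
          val v hh.choose else false
        have hh : ∃ x', ∀ i, val (a i) x' = val (e.symm (e (a i))) x := ⟨x, by simp⟩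
        rw [dif_pos hh]
        symm
        apply hdet
        intro u hu
        obtain ⟨i, rfl⟩ := ha' u hu
        have h1 := hh.choose_spec i
        rw [Equiv.symm_apply_apply] at h1
        exact h1
  choose G hG1 hG2 using key
  let D : BCircuit I (Fintype.card V) w := ⟨fun i => G (e.symm i), e out, fun i a g hg j => by
    have h1 := hG1 (e.symm i) a g hg j
    rwa [Equiv.apply_symm_apply] at h1⟩
  have hval : ∀ i x, D.gateFun i x = val (e.symm i) x := by
    intro i x
    have h1 : (fun i => val (e.symm i) x) = (D.exists_eval x).choose := by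
      refine D.eval_unique x ?_ (D.exists_eval x).choose_spec
      intro i
      unfold BCircuit.value
      split
      · rename_i j hj
        exact (hG2 (e.symm i) x).1 j hj
      · rename_i a g hg
        exact (hG2 (e.symm i) x).2 a g hg
    exact (congrFun h1 i).symm
  refine ⟨D, fun i => ⟨e.symm i, funext (hval i)⟩, ?_⟩
  funext x
  rw [hval]
  show val (e.symm (e out)) x = _
  rw [Equiv.symm_apply_apply]

end Pool.Agent.SymRand
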