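import Mathlib

/-!
# Circuits on bit vectors and a group of permutations of the input positions (definitions)

`I` is the set of the input positions, `ρ : Γ →* Equiv.Perm I` an action of a group on it.
`BCircuit I s w`: Boolean circuits with `s` gates; a gate is an input bit or an arbitrary Boolean
function of `w` gates.  `RCircuit I s t ℓ`: circuits with real gates; a gate is an input bit, or it
adds up arbitrarily many terms, each of which is an arbitrary function of the values of `t` gates,
and its value is this sum, or tells whether this sum is at least a threshold, or it is this sum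
modulo `ℓ` (if the terms are integers).
-/

namespace Pool.Agent.SymRand

/-- The input `x` moved by `σ`. -/
def act {Γ I : Type} [Group Γ] (ρ : Γ →* Equiv.Perm I) (σ : Γ) (x : I → Bool) : I → Bool :=
  fun i => x ((ρ σ)⁻¹ i)

/-- The images of a function of the inputs under the group. -/
def images {Γ I V : Type} [Group Γ] (ρ : Γ →* Equiv.Perm I) (f : (I → Bool) → V) :
    Set ((I → Bool) → V) :=
  {h | ∃ σ : Γ, h = fun x => f (act ρ σ x)}

/-- A Boolean circuit with `s` gates: each gate is an input bit, or an arbitrary Boolean function
of the values of `w` gates with smaller numbers. -/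
structure BCircuit (I : Type) (s w : ℕ) where
  /-- the gates -/
  gate : Fin s → I ⊕ ((Fin w → Fin s) × ((Fin w → Bool) → Bool))
  /-- the output gate -/
  out : Fin s
  lt : ∀ v a g, gate v = Sum.inr (a, g) → ∀ i, a i < v

/-- The value of the gate `v` on the input `x` when the gates have the values `val`. -/
def BCircuit.value {I : Type} {s w : ℕ} (D : BCircuit I s w) (x : I → Bool) (val : Fin s → Bool)
    (v : Fin s) : Bool :=
  match D.gate v with
  | .inl i => x i
  | .inr (a, g) => g fun i => val (a i)

theorem BCircuit.value_congr {I : Type} {s w : ℕ} (D : BCircuit I s w) (x : I → Bool)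
    (val val' : Fin s → Bool) (v : Fin s) (h : ∀ k < v, val k = val' k) :
    D.value x val v = D.value x val' v := by
  unfold BCircuit.value
  split
  · rfl
  · rename_i a g hg
    congr 1
    funext i
    exact h _ (D.lt v a g hg i)

/-- The vector of the values exists (and is unique). -/
theorem BCircuit.exists_eval {I : Type} {s w : ℕ} (D : BCircuit I s w) (x : I → Bool) :
    ∃ val, ∀ v, val v = D.value x val v := by
  classical
  obtain ⟨F, hF⟩ : ∃ F : (v : Fin s) → ((k : Fin s) → k < v → Bool) → Bool,
      F = fun v r => D.value x (fun k => if h : k < v then r k h else false) v := ⟨_, rfl⟩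
  refine ⟨WellFounded.fix (wellFounded_lt (α := Fin s)) F, fun v => ?_⟩
  have h1 := WellFounded.fix_eq (wellFounded_lt (α := Fin s)) F v
  generalize WellFounded.fix (wellFounded_lt (α := Fin s)) F = val at h1 ⊢
  rw [h1, hF]
  exact D.value_congr x _ _ v fun k hk => dif_pos hk

theorem BCircuit.eval_unique {I : Type} {s w : ℕ} (D : BCircuit I s w) (x : I → Bool)
    {val val' : Fin s → Bool} (h : ∀ v, val v = D.value x val v)
    (h' : ∀ v, val' v = D.value x val' v) : val = val' := by
  funext v
  induction v using WellFoundedLT.induction with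
  | ind v ih => exact (h v).trans ((D.value_congr x val val' v ih).trans (h' v).symm)

/-- The Boolean function of the input computed by the gate `v`. -/
noncomputable def BCircuit.gateFun {I : Type} {s w : ℕ} (D : BCircuit I s w) (v : Fin s)
    (x : I → Bool) : Bool :=
  (D.exists_eval x).choose v

/-- A gate with real values of a circuit with `s` gates and input positions `I`.  The index `c` runs
over the `t`-tuples of gates; the term of `c` is `ψ c`, a function of the `t` values of these
gates. -/
inductive RGate (I : Type) (s t : ℕ) : Type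
  /-- an input bit: its value is `0` or `1` -/
  | bit (i : I) : RGate I s t
  /-- the sum of the terms -/
  | sum (ψ : (Fin t → Fin s) → (Fin t → ℝ) → ℝ) : RGate I s t
  /-- `1` if the sum of the terms is at least `θ`, otherwise `0` -/
  | threshold (ψ : (Fin t → Fin s) → (Fin t → ℝ) → ℝ) (θ : ℝ) : RGate I s t
  /-- the sum of the (integer) terms modulo `ℓ`, a number in `{0, …, ℓ - 1}` -/
  | modular (ψ : (Fin t → Fin s) → (Fin t → ℝ) → ℤ) : RGate I s t

open Classical in
/-- The value of a gate on the input `x` when the gates have the values `val`. -/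
noncomputable def RGate.value {I : Type} {s t : ℕ} (ℓ : ℕ) (g : RGate I s t) (x : I → Bool)
    (val : Fin s → ℝ) : ℝ :=
  match g with
  | .bit i => if x i = true then 1 else 0
  | .sum ψ => ∑ c, ψ c fun l => val (c l)
  | .threshold ψ θ => if θ ≤ ∑ c, ψ c fun l => val (c l) then 1 else 0
  | .modular ψ => (((∑ c, ψ c fun l => val (c l)) % (ℓ : ℤ) : ℤ) : ℝ)

/-- A circuit with real gates: each gate reads only gates with a smaller number (the term of a
`t`-tuple which contains another gate is the zero function). -/
structure RCircuit (I : Type) (s t ℓ : ℕ) where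
  /-- the gates -/
  gate : Fin s → RGate I s t
  /-- the output gate -/
  out : Fin s
  sum_lt : ∀ i ψ, gate i = RGate.sum ψ → ∀ c, ψ c ≠ 0 → ∀ l, c l < i
  threshold_lt : ∀ i ψ θ, gate i = RGate.threshold ψ θ → ∀ c, ψ c ≠ 0 → ∀ l, c l < i
  modular_lt : ∀ i ψ, gate i = RGate.modular ψ → ∀ c, ψ c ≠ 0 → ∀ l, c l < i

/-- The sum of the terms depends on the values of the smaller gates only. -/
theorem sum_congr_lt {s t : ℕ} {R : Type} [AddCommMonoid R]
    (ψ : (Fin t → Fin s) → (Fin t → ℝ) → R) (i : Fin s) (hψ : ∀ c, ψ c ≠ 0 → ∀ l, c l < i)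
    (val val' : Fin s → ℝ) (h : ∀ k < i, val k = val' k) :
    (∑ c, ψ c fun l => val (c l)) = ∑ c, ψ c fun l => val' (c l) := by
  refine Finset.sum_congr rfl fun c _ => ?_
  by_cases hc : ψ c = 0
  · rw [hc]
    rfl
  · rw [show (fun l => val (c l)) = fun l => val' (c l) from
      funext fun l => h _ (hψ c hc l)]

/-- The value of a gate depends on the values of the smaller gates only. -/
theorem RCircuit.value_congr {I : Type} {s t ℓ : ℕ} (D : RCircuit I s t ℓ) (x : I → Bool)
    (i : Fin s) (val val' : Fin s → ℝ) (h : ∀ k < i, val k = val' k) :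
    (D.gate i).value ℓ x val = (D.gate i).value ℓ x val' := by
  cases hg : D.gate i with
  | bit a => rfl
  | sum ψ =>
    simp only [RGate.value]
    exact sum_congr_lt ψ i (D.sum_lt i ψ hg) val val' h
  | threshold ψ θ =>
    simp only [RGate.value]
    rw [sum_congr_lt ψ i (D.threshold_lt i ψ θ hg) val val' h]
  | modular ψ =>
    simp only [RGate.value]
    rw [sum_congr_lt ψ i (D.modular_lt i ψ hg) val val' h]

/-- The vector of the values exists (and is unique). -/
theorem RCircuit.exists_eval {I : Type} {s t ℓ : ℕ} (D : RCircuit I s t ℓ) (x : I → Bool) :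
    ∃ val : Fin s → ℝ, ∀ i, val i = (D.gate i).value ℓ x val := by
  classical
  obtain ⟨F, hF⟩ : ∃ F : (i : Fin s) → ((k : Fin s) → k < i → ℝ) → ℝ,
      F = fun i r => (D.gate i).value ℓ x (fun k => if h : k < i then r k h else 0) := ⟨_, rfl⟩
  refine ⟨WellFounded.fix (wellFounded_lt (α := Fin s)) F, fun i => ?_⟩
  have h1 := WellFounded.fix_eq (wellFounded_lt (α := Fin s)) F i
  generalize WellFounded.fix (wellFounded_lt (α := Fin s)) F = val at h1 ⊢
  rw [h1, hF]
  exact D.value_congr x i _ _ fun k hk => dif_pos hk

theorem RCircuit.eval_unique {I : Type} {s t ℓ : ℕ} (D : RCircuit I s t ℓ) (x : I → Bool)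
    {val val' : Fin s → ℝ} (h : ∀ i, val i = (D.gate i).value ℓ x val)
    (h' : ∀ i, val' i = (D.gate i).value ℓ x val') : val = val' := by
  funext i
  induction i using WellFoundedLT.induction with
  | ind i ih => exact (h i).trans ((D.value_congr x i val val' ih).trans (h' i).symm)

/-- The real function of the input computed by the gate `i`. -/
noncomputable def RCircuit.gateFun {I : Type} {s t ℓ : ℕ} (D : RCircuit I s t ℓ) (i : Fin s)
    (x : I → Bool) : ℝ :=
  (D.exists_eval x).choose i

/-- The group acts on the input positions by `ρ` and on the random bits by `ρ'`. -/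
def joint {Γ I J : Type} [Group Γ] (ρ : Γ →* Equiv.Perm I) (ρ' : Γ →* Equiv.Perm J) :
    Γ →* Equiv.Perm (I ⊕ J) :=
  (Equiv.Perm.sumCongrHom I J).comp (ρ.prod ρ')

/-- `f` is computed with one-sided error by a randomized Boolean circuit with at most `s` gates of
fan-in `w`, all of whose gates compute functions with at most `K` images: there are a finite set
`J` of random bits, on which the group acts as well, and a Boolean circuit which reads the input `x`
and the random bits `r`, such that at least half of all `r` are accepted if `f x = true` and no `r`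
is accepted if `f x = false`. -/
def OneSided {Γ I : Type} [Group Γ] (ρ : Γ →* Equiv.Perm I) (f : (I → Bool) → Bool)
    (s w K : ℕ) : Prop :=
  ∃ (J : Type) (_ : Fintype J) (ρ' : Γ →* Equiv.Perm J) (s' : ℕ) (D : BCircuit (I ⊕ J) s' w),
    s' ≤ s ∧ Fintype.card J ≤ s ∧ (∀ v, (images (joint ρ ρ') (D.gateFun v)).ncard ≤ K) ∧
    ∀ x, (f x = true → 2 ^ Fintype.card J ≤
        2 * {r : J → Bool | D.gateFun D.out (Sum.elim x r) = true}.ncard) ∧
      (f x = false → ∀ r : J → Bool, D.gateFun D.out (Sum.elim x r) = false)

end Pool.Agent.SymRand
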