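import Pool.Agent.Lib.MP_b573ec_lc_SYR.Defs
import Pool.Agent.Lib.MP_0a1b52_lc_SG.Defs2

/-!
# Project SYR: internal definitions

`SymGap.bdry`, `SymGap.vars`, `SymGap.Expands`, `SymGap.Sys`, `SymGap.PB`, `SymGap.Inv` are those of
project SG (`MP_0a1b52_lc_SG/Defs2.lean`).
-/

namespace Pool.Agent.SymRand

open Pool.Agent

section loc

variable {M N D p : ℕ}

/-- The assignments `κ` of the variables which satisfy the constraints of all sets `S` of at most
`s1` constraints whose boundary is contained in `Y`. -/
def solV (v : Fin M → Fin D → Fin N) (b : Fin M → ZMod p) (s1 : ℕ)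
    (Y : Finset (Fin D × Fin N)) : Set (Fin D × Fin N → ZMod p) :=
  {κ | ∀ S : Finset (Fin M), S.card ≤ s1 → SymGap.bdry v S ⊆ Y →
    ∀ c ∈ S, ∑ i, κ (i, v c i) = b c}

end loc

section setup

variable {D N M p n : ℕ}

/-- The data of the input: `M` constraints, the constraint `c` has the `D` variables `(i, v c i)`;
the input bits are numbered by `β`; the group of the variable `X` has the number `bl X`. -/
structure Setup (D N M p n : ℕ) where
  v : Fin M → Fin D → Fin N
  bl : Fin D × Fin N ↪ Fin n
  β : Fin M × (Fin D → Fin p) × ZMod p ↪ Fin n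

/-- The permutation of the names of the input bits given by `σ`. -/
def Setup.permIdx (P : Setup D N M p n) (σ : Fin n → alternatingGroup (Fin p)) :
    Equiv.Perm (Fin M × (Fin D → Fin p) × ZMod p) where
  toFun x := (x.1, fun i => (σ (P.bl (i, P.v x.1 i)) : Equiv.Perm (Fin p)) (x.2.1 i), x.2.2)
  invFun x := (x.1, fun i => (σ (P.bl (i, P.v x.1 i)) : Equiv.Perm (Fin p)).symm (x.2.1 i), x.2.2)
  left_inv x := by simp
  right_inv x := by simp

/-- The action of the group on the positions of the input bits. -/
noncomputable def Setup.rho (P : Setup D N M p n) :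
    (Fin n → alternatingGroup (Fin p)) →* Equiv.Perm (Fin n) where
  toFun σ := (P.permIdx σ).viaEmbedding P.β
  map_one' := by
    have h : P.permIdx 1 = 1 := by
      apply Equiv.ext
      intro x
      rfl
    rw [h]
    exact map_one (Equiv.Perm.viaEmbeddingHom P.β)
  map_mul' σ τ := by
    have h : P.permIdx (σ * τ) = P.permIdx σ * P.permIdx τ := by
      apply Equiv.ext
      intro x
      rfl
    rw [h]
    exact map_mul (Equiv.Perm.viaEmbeddingHom P.β) _ _

/-- The number in `ZMod p` which is given by the bits `β (c, z, α)`, `α : ZMod p`. -/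
def Setup.num (P : Setup D N M p n) [NeZero p] (x : Fin n → Bool) (c : Fin M)
    (z : Fin D → Fin p) : ZMod p :=
  ∑ α : ZMod p, if x (P.β (c, z, α)) = true then α else 0

/-- The sum of the numbers of all constraints, with coefficients `y c`, at the assignment `ζ`. -/
def Setup.T (P : Setup D N M p n) [NeZero p] (y : Fin M → ZMod p) (x : Fin n → Bool)
    (ζ : Fin D × Fin N → Fin p) : ZMod p :=
  ∑ c, y c * P.num x c fun i => ζ (i, P.v c i)

open Classical in
/-- Is `T` not identically zero? -/
noncomputable def Setup.f (P : Setup D N M p n) [NeZero p] (y : Fin M → ZMod p)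
    (x : Fin n → Bool) : Bool :=
  decide (∃ ζ, P.T y x ζ ≠ 0)

open Classical in
/-- The input with `num c z = b c + ∑ i, z i`. -/
noncomputable def Setup.inst (P : Setup D N M p n) [NeZero p] (b : Fin M → ZMod p) :
    Fin n → Bool :=
  fun k => decide (∃ c z, k = P.β (c, z, b c + ∑ i, ((z i : ℕ) : ZMod p)))

end setup

section sel

variable {p Q : ℕ}

open Classical in
/-- Has one of the first `q` tries exactly one `true`? -/
noncomputable def dn (r : Fin Q → Fin p → Bool) (q : ℕ) : Bool :=
  decide (∃ i : Fin Q, (i : ℕ) < q ∧ ∃! z, r i z = true)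

open Classical in
/-- Is `z` the `true` of the first try with exactly one `true`, and is this one of the first `q`
tries? -/
noncomputable def sl (r : Fin Q → Fin p → Bool) (q : ℕ) (z : Fin p) : Bool :=
  decide (∃ i : Fin Q, (i : ℕ) < q ∧ (∃! z', r i z' = true) ∧ r i z = true ∧
    ∀ i' < i, ¬ ∃! z', r i' z' = true)

end sel

section net

variable {D N M p n K Q : ℕ}

/-- The random bits: `K` copies, for each variable `Q` tries, each of `p` bits. -/
abbrev RBit (D N p K Q : ℕ) : Type := Fin K × (Fin D × Fin N) × Fin Q × Fin p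

/-- The permutation of the random bits given by `σ`. -/
def Setup.permR (P : Setup D N M p n) (K Q : ℕ) (σ : Fin n → alternatingGroup (Fin p)) :
    Equiv.Perm (RBit D N p K Q) where
  toFun x := (x.1, x.2.1, x.2.2.1, (σ (P.bl x.2.1) : Equiv.Perm (Fin p)) x.2.2.2)
  invFun x := (x.1, x.2.1, x.2.2.1, (σ (P.bl x.2.1) : Equiv.Perm (Fin p)).symm x.2.2.2)
  left_inv x := by simp
  right_inv x := by simp

/-- The action of the group on the random bits. -/
def Setup.rhoR (P : Setup D N M p n) (K Q : ℕ) :
    (Fin n → alternatingGroup (Fin p)) →* Equiv.Perm (RBit D N p K Q) where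
  toFun σ := P.permR K Q σ
  map_one' := by
    apply Equiv.ext
    intro x
    rfl
  map_mul' σ τ := by
    apply Equiv.ext
    intro x
    rfl

/-- The random bits of the copy `k` for the variable `X`. -/
def rr (ω : Fin n ⊕ RBit D N p K Q → Bool) (k : Fin K) (X : Fin D × Fin N) :
    Fin Q → Fin p → Bool :=
  fun q z => ω (Sum.inr (k, X, q, z))

/-- The input bits. -/
def xx (ω : Fin n ⊕ RBit D N p K Q → Bool) : Fin n → Bool :=
  fun i => ω (Sum.inl i)

/-- The contribution of the constraint `c` in the copy `k`. -/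
noncomputable def Setup.term (P : Setup D N M p n) [NeZero p] (y : Fin M → ZMod p)
    (ω : Fin n ⊕ RBit D N p K Q → Bool) (k : Fin K) (c : Fin M) : ZMod p :=
  y c * ∑ z : Fin D → Fin p,
    if (∀ i, sl (rr ω k (i, P.v c i)) Q (z i) = true) then P.num (xx ω) c z else 0

/-- The names of the gates. -/
inductive Nm (D N M p n K Q : ℕ) : Type
  /-- an input bit -/
  | x (i : Fin n)
  /-- a random bit -/
  | r (j : RBit D N p K Q)
  /-- `dn` of the first `q` tries for `X` -/
  | dn (k : Fin K) (X : Fin D × Fin N) (q : Fin (Q + 1))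
  /-- `sl` of the first `q` tries for `X` -/
  | sl (k : Fin K) (X : Fin D × Fin N) (q : Fin (Q + 1)) (z : Fin p)
  /-- are the variables with numbers `< i` done? -/
  | al (k : Fin K) (i : Fin (D * N + 1))
  /-- is the sum of the terms of the constraints `< c` equal to `α`? -/
  | sm (k : Fin K) (c : Fin (M + 1)) (α : ZMod p)
  /-- the answer of the copy `k` -/
  | ot (k : Fin K)
  /-- the output -/
  | out

open Classical in
/-- The value of a gate. -/
noncomputable def Setup.val (P : Setup D N M p n) [NeZero p] (y : Fin M → ZMod p) :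
    Nm D N M p n K Q → (Fin n ⊕ RBit D N p K Q → Bool) → Bool
  | .x i, ω => ω (Sum.inl i)
  | .r j, ω => ω (Sum.inr j)
  | .dn k X q, ω => SymRand.dn (rr ω k X) q
  | .sl k X q z, ω => SymRand.sl (rr ω k X) q z
  | .al k i, ω => decide (∀ X : Fin D × Fin N, (finProdFinEquiv X : ℕ) < i →
      SymRand.dn (rr ω k X) Q = true)
  | .sm k c α, ω => decide ((∑ c' : Fin M, if (c' : ℕ) < c then P.term y ω k c' else 0) = α)
  | .ot k, ω => decide ((∀ X, SymRand.dn (rr ω k X) Q = true) ∧ ∑ c, P.term y ω k c ≠ 0)
  | .out, ω => decide (∃ k : Fin K, (∀ X, SymRand.dn (rr ω k X) Q = true) ∧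
      ∑ c, P.term y ω k c ≠ 0)

/-- The rank of a gate. -/
def Nm.rank : Nm D N M p n K Q → ℕ
  | .x _ => 0
  | .r _ => 0
  | .dn _ _ q => q + 1
  | .sl _ _ q _ => q + 1
  | .al _ i => Q + 2 + i
  | .sm _ c _ => Q + 2 + c
  | .ot _ => Q + 3 + D * N + M
  | .out => Q + 4 + D * N + M

end net

end Pool.Agent.SymRand
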