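import Pool.Agent.Lib.MP_b573ec_lc_SYR.Act0

/-!
# Project SYR, module InstV: the function `f` and the special inputs
-/

namespace Pool.Agent.SymRand

open Pool.Agent

variable {D N M p n : ℕ} [NeZero p]

private theorem InstV_β (P : Setup D N M p n) (b : Fin M → ZMod p) (c : Fin M)
    (z : Fin D → Fin p) (α : ZMod p) :
    P.inst b (P.β (c, z, α)) = true ↔ α = b c + ∑ i, ((z i : ℕ) : ZMod p) := by
  unfold Setup.inst
  rw [decide_eq_true_iff]
  constructor
  · rintro ⟨c', z', h⟩
    have h1 := P.β.injective h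
    rw [Prod.mk.injEq, Prod.mk.injEq] at h1
    obtain ⟨rfl, rfl, h2⟩ := h1
    exact h2
  · intro h
    exact ⟨c, z, by rw [← h]⟩

private theorem InstV_out (P : Setup D N M p n) (b : Fin M → ZMod p) {k : Fin n}
    (hk : k ∉ Set.range P.β) : P.inst b k = false := by
  unfold Setup.inst
  rw [decide_eq_false_iff_not]
  rintro ⟨c, z, h⟩
  exact hk ⟨_, h.symm⟩

/-- **Module InstV (1).**  By `rho_inv_β`, term by term. -/
theorem num_act (P : Setup D N M p n) (σ : Fin n → alternatingGroup (Fin p)) (x : Fin n → Bool)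
    (c : Fin M) (z : Fin D → Fin p) :
    P.num (act P.rho σ x) c z =
      P.num x c fun i => (σ (P.bl (i, P.v c i)) : Equiv.Perm (Fin p)).symm (z i) := by
  unfold Setup.num
  refine Finset.sum_congr rfl fun α _ => ?_
  have h : act P.rho σ x (P.β (c, z, α)) =
      x (P.β (c, fun i => (σ (P.bl (i, P.v c i)) : Equiv.Perm (Fin p)).symm (z i), α)) := by
    rw [← rho_inv_β]
    rfl
  rw [h]

/-- **Module InstV (2).**  From (1). -/
theorem T_act (P : Setup D N M p n) (y : Fin M → ZMod p) (σ : Fin n → alternatingGroup (Fin p))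
    (x : Fin n → Bool) (ζ : Fin D × Fin N → Fin p) :
    P.T y (act P.rho σ x) ζ =
      P.T y x fun X => (σ (P.bl X) : Equiv.Perm (Fin p)).symm (ζ X) := by
  unfold Setup.T
  refine Finset.sum_congr rfl fun c _ => ?_
  rw [num_act]

/-- **Module InstV (3).**  From (2): `ζ ↦ fun X => (σ (P.bl X)).symm (ζ X)` is a bijection of the
assignments (for the other direction use `fun X => σ (P.bl X) (ζ X)`). -/
theorem f_act (P : Setup D N M p n) (y : Fin M → ZMod p) (σ : Fin n → alternatingGroup (Fin p))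
    (x : Fin n → Bool) : P.f y (act P.rho σ x) = P.f y x := by
  unfold Setup.f
  refine decide_eq_decide.2 ⟨?_, ?_⟩
  · rintro ⟨ζ, h⟩
    rw [T_act] at h
    exact ⟨_, h⟩
  · rintro ⟨ζ, h⟩
    refine ⟨fun X => (σ (P.bl X) : Equiv.Perm (Fin p)) (ζ X), ?_⟩
    rw [T_act]
    simpa only [Equiv.symm_apply_apply] using h

/-- **Module InstV (4).**  `P.inst b (P.β (c, z, α)) = true` iff
`α = b c + ∑ i, (z i : ZMod p)` (`P.β` is injective).  `Finset.sum_ite_eq`. -/
theorem num_inst (P : Setup D N M p n) (b : Fin M → ZMod p) (c : Fin M) (z : Fin D → Fin p) :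
    P.num (P.inst b) c z = b c + ∑ i, ((z i : ℕ) : ZMod p) := by
  classical
  unfold Setup.num
  have h : ∀ α : ZMod p, (if P.inst b (P.β (c, z, α)) = true then α else 0) =
      if b c + ∑ i, ((z i : ℕ) : ZMod p) = α then α else 0 := by
    intro α
    refine if_congr ?_ rfl rfl
    rw [InstV_β]
    exact eq_comm
  rw [Finset.sum_congr rfl fun α _ => h α, Finset.sum_ite_eq, if_pos (Finset.mem_univ _)]

/-- **Module InstV (5).**  By (4), and since
`∑ c, y c * ∑ i, (ζ (i, v c i) : ZMod p) = ∑ X, (ζ X : ZMod p) * ∑ c, if v c X.1 = X.2 then y c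
else 0 = 0`:  write `(ζ (i, v c i) : ZMod p) = ∑ u, if v c i = u then (ζ (i, u) : ZMod p) else 0`
and exchange the sums (`Fintype.sum_prod_type`, `Finset.sum_comm`). -/
theorem T_inst (P : Setup D N M p n) (y b : Fin M → ZMod p)
    (hy : ∀ X : Fin D × Fin N, ∑ c, (if P.v c X.1 = X.2 then y c else 0) = 0)
    (ζ : Fin D × Fin N → Fin p) : P.T y (P.inst b) ζ = ∑ c, y c * b c := by
  classical
  unfold Setup.T
  have h1 : ∀ c, y c * P.num (P.inst b) c (fun i => ζ (i, P.v c i)) =
      y c * b c + ∑ i, ∑ u, (if P.v c i = u then y c else 0) * ((ζ (i, u) : ℕ) : ZMod p) := by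
    intro c
    rw [num_inst, mul_add, Finset.mul_sum]
    congr 1
    refine Finset.sum_congr rfl fun i _ => ?_
    rw [Finset.sum_eq_single (P.v c i), if_pos rfl]
    · intro u _ hu
      rw [if_neg (Ne.symm hu), zero_mul]
    · exact fun h => absurd (Finset.mem_univ _) h
  rw [Finset.sum_congr rfl fun c _ => h1 c, Finset.sum_add_distrib, Finset.sum_comm]
  have h2 : ∀ i, ∑ c, ∑ u, (if P.v c i = u then y c else 0) * ((ζ (i, u) : ℕ) : ZMod p) = 0 := by
    intro i
    rw [Finset.sum_comm]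
    refine Finset.sum_eq_zero fun u _ => ?_
    rw [← Finset.sum_mul, hy (i, u), zero_mul]
  rw [Finset.sum_eq_zero fun i _ => h2 i, add_zero]

/-- **Module InstV (6).**  From (5); there is an assignment since `Fin p` is not empty. -/
theorem f_inst (P : Setup D N M p n) (y b : Fin M → ZMod p)
    (hy : ∀ X : Fin D × Fin N, ∑ c, (if P.v c X.1 = X.2 then y c else 0) = 0)
    (hb : ∑ c, y c * b c ≠ 0) : P.f y (P.inst b) = true ∧ P.f y (P.inst 0) = false := by
  unfold Setup.f
  refine ⟨decide_eq_true ⟨fun _ => 0, ?_⟩, decide_eq_false ?_⟩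
  · rw [T_inst P y b hy]
    exact hb
  · rintro ⟨ζ, h⟩
    refine h ?_
    rw [T_inst P y 0 hy]
    simp

/-- **Module InstV (7).**  Translating the group of the variable `X` by `κ X` changes the offsets.

PROOF.  `funext k`.  If `k` is not in the range of `P.β`, both sides are `false`
(`rho_inv_out`).  Let `k = P.β (c, z, α)`.  By `rho_inv_β` the left-hand side is `true` iff
`α = b c + ∑ i, (z' i : ZMod p)` with `z' i = (tr (ofAdd (κ (i, v c i)))).symm (z i)`, and by `htr`
(for the point `z' i`) `(z' i : ZMod p) = z i - κ (i, v c i)`. -/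
theorem act_inst (P : Setup D N M p n)
    (tr : Multiplicative (ZMod p) →* alternatingGroup (Fin p))
    (htr : ∀ (u : ZMod p) (z : Fin p),
      (((tr (Multiplicative.ofAdd u) : Equiv.Perm (Fin p)) z : ℕ) : ZMod p) = (z : ℕ) + u)
    (b : Fin M → ZMod p) (κ : Fin D × Fin N → ZMod p) (τ : Fin n → alternatingGroup (Fin p))
    (hτ : ∀ X, τ (P.bl X) = tr (Multiplicative.ofAdd (κ X))) :
    act P.rho τ (P.inst b) = P.inst fun c => b c - ∑ i, κ (i, P.v c i) := by
  funext k
  by_cases hk : k ∈ Set.range P.β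
  · obtain ⟨⟨c, z, α⟩, rfl⟩ := hk
    have h1 : act P.rho τ (P.inst b) (P.β (c, z, α)) = P.inst b
        (P.β (c, fun i => (τ (P.bl (i, P.v c i)) : Equiv.Perm (Fin p)).symm (z i), α)) := by
      rw [← rho_inv_β]
      rfl
    rw [h1, Bool.eq_iff_iff, InstV_β, InstV_β]
    have h2 : ∀ i, ((((τ (P.bl (i, P.v c i)) : Equiv.Perm (Fin p)).symm (z i) : Fin p) : ℕ) :
        ZMod p) = ((z i : ℕ) : ZMod p) - κ (i, P.v c i) := by
      intro i
      have h3 := htr (κ (i, P.v c i)) ((τ (P.bl (i, P.v c i)) : Equiv.Perm (Fin p)).symm (z i))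
      rw [← hτ, Equiv.apply_symm_apply] at h3
      rw [h3, add_sub_cancel_right]
    rw [Finset.sum_congr rfl fun i _ => h2 i, Finset.sum_sub_distrib]
    have h4 : b c + (∑ i, ((z i : ℕ) : ZMod p) - ∑ i, κ (i, P.v c i)) =
        b c - ∑ i, κ (i, P.v c i) + ∑ i, ((z i : ℕ) : ZMod p) := by
      ring
    rw [h4]
  · have h1 : act P.rho τ (P.inst b) k = P.inst b k := by
      change P.inst b ((P.rho τ)⁻¹ k) = _
      rw [rho_inv_out P τ k hk]
    rw [h1, InstV_out P b hk, InstV_out P _ hk]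

/-- **Module InstV (8).**  A bit of an image of `P.inst b` depends only on the offset of one
constraint: `B0 = ∅` if `k` is not in the range of `P.β` (`rho_inv_out`), and
`B0 = univ.image fun i => P.bl (i, P.v c i)` if `k = P.β (c, z, α)` (`rho_inv_β`; the bit
`(c, z', α)` of `P.inst b` is `true` iff `α = b c + ∑ i, (z' i : ZMod p)`). -/
theorem bit_local (P : Setup D N M p n) (k : Fin n) : ∃ B0 : Finset (Fin n), B0.card ≤ D ∧
    ∀ b b' : Fin M → ZMod p, (∀ c, (∀ i, P.bl (i, P.v c i) ∈ B0) → b c = b' c) →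
      ∀ σ, act P.rho σ (P.inst b) k = act P.rho σ (P.inst b') k := by
  classical
  by_cases hk : k ∈ Set.range P.β
  · obtain ⟨⟨c, z, α⟩, rfl⟩ := hk
    refine ⟨Finset.univ.image fun i => P.bl (i, P.v c i),
      Finset.card_image_le.trans (by simp), fun b b' h σ => ?_⟩
    have h1 : ∀ b : Fin M → ZMod p, act P.rho σ (P.inst b) (P.β (c, z, α)) = P.inst b
        (P.β (c, fun i => (σ (P.bl (i, P.v c i)) : Equiv.Perm (Fin p)).symm (z i), α)) := by
      intro b
      rw [← rho_inv_β]
      rfl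
    rw [h1, h1, Bool.eq_iff_iff, InstV_β, InstV_β,
      h c fun i => Finset.mem_image_of_mem _ (Finset.mem_univ i)]
  · refine ⟨∅, by simp, fun b b' _ σ => ?_⟩
    have h1 : ∀ b : Fin M → ZMod p, act P.rho σ (P.inst b) k = P.inst b k := by
      intro b
      change P.inst b ((P.rho σ)⁻¹ k) = _
      rw [rho_inv_out P σ k hk]
    rw [h1, h1, InstV_out P b hk, InstV_out P b' hk]

end Pool.Agent.SymRand
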