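import Pool.Agent.Lib.MP_b573ec_lc_SYR.Defs2

/-!
# Project SYR, module Kern: more constraints than variables
-/

namespace Pool.Agent.SymRand

open Pool.Agent

/-- **Module Kern.**  If there are more constraints than variables, then there is a linear relation
between the constraints.

PROOF.  The linear map `(Fin M → ZMod p) →ₗ (Fin D × Fin N → ZMod p)`,
`y ↦ fun X => ∑ c, if v c X.1 = X.2 then y c else 0`, is not injective, since
`finrank (Fin D × Fin N → ZMod p) = D * N < M` (`LinearMap.exists_ne_zero_of_finrank_lt`, or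
`LinearMap.ker_ne_bot_of_finrank_lt`, or `Submodule`-free:
`Matrix.exists_mulVec_eq_zero_iff` style lemmas); `ZMod p` is a field.  So there is `y ≠ 0` in the
kernel; take `c0` with `y c0 ≠ 0` and `b = Pi.single c0 1`: `∑ c, y c * b c = y c0 ≠ 0`. -/
theorem exists_kernel {M N D p : ℕ} [Fact p.Prime] (v : Fin M → Fin D → Fin N)
    (h : D * N < M) : ∃ y b : Fin M → ZMod p,
      (∀ X : Fin D × Fin N, ∑ c, (if v c X.1 = X.2 then y c else 0) = 0) ∧
      ∑ c, y c * b c ≠ 0 := by
  classical
  let φ : (Fin M → ZMod p) →ₗ[ZMod p] (Fin D × Fin N → ZMod p) :=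
    { toFun := fun y X => ∑ c, if v c X.1 = X.2 then y c else 0
      map_add' := by
        intro y z
        funext X
        simp only [Pi.add_apply, ← Finset.sum_add_distrib]
        refine Finset.sum_congr rfl fun c _ => ?_
        split_ifs <;> simp
      map_smul' := by
        intro a y
        funext X
        simp only [Pi.smul_apply, smul_eq_mul, RingHom.id_apply, Finset.mul_sum]
        refine Finset.sum_congr rfl fun c _ => ?_
        split_ifs <;> simp }
  have h1 : Module.finrank (ZMod p) (Fin D × Fin N → ZMod p) <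
      Module.finrank (ZMod p) (Fin M → ZMod p) := by
    rw [Module.finrank_fintype_fun_eq_card, Module.finrank_fintype_fun_eq_card, Fintype.card_prod,
      Fintype.card_fin, Fintype.card_fin, Fintype.card_fin]
    exact h
  have h2 := LinearMap.ker_ne_bot_of_finrank_lt (f := φ) h1
  obtain ⟨y, hy, hy0⟩ := (Submodule.ne_bot_iff _).1 h2
  obtain ⟨c0, hc0⟩ := Function.ne_iff.1 hy0
  refine ⟨y, Pi.single c0 1, fun X => congrFun (LinearMap.mem_ker.1 hy) X, ?_⟩
  rw [Finset.sum_eq_single c0]
  · rw [Pi.single_eq_same, mul_one]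
    exact hc0
  · intro c _ hc
    rw [Pi.single_eq_of_ne hc, mul_zero]
  · intro hc
    exact absurd (Finset.mem_univ c0) hc

end Pool.Agent.SymRand
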