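import Pool.Agent.Lib.MP_b573ec_lc_SYR.Defs2

/-!
# Project SYR, module LocV: local solutions and their extension

Compare `MP_0a1b52_lc_SG/Loc.lean`, where the same is proved for codes of dimension `d`
(`stuck_union`, `exists_closure`, `ext0`, `locSol_ext`); here each constraint is one linear equation
and `Y` is a set of variables.
-/

namespace Pool.Agent.SymRand

open Pool.Agent

variable {M N D p : ℕ}

/-- a boundary variable of `S` which belongs to `c ∈ R ⊆ S` is a boundary variable of `R` -/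
private theorem LocV_bdry (v : Fin M → Fin D → Fin N) {R S : Finset (Fin M)} (hR : R ⊆ S)
    {c : Fin M} (hc : c ∈ R) {x : Fin D × Fin N} (hcx : v c x.1 = x.2)
    (hx : x ∈ SymGap.bdry v S) : x ∈ SymGap.bdry v R := by
  obtain ⟨a, ha⟩ := Finset.card_eq_one.1 (Finset.mem_filter.1 hx).2
  have huniq : ∀ y ∈ S, v y x.1 = x.2 → y = a := by
    intro y hy hyx
    have h1 : y ∈ S.filter fun c => v c x.1 = x.2 := Finset.mem_filter.2 ⟨hy, hyx⟩
    rw [ha] at h1
    exact Finset.mem_singleton.1 h1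
  refine Finset.mem_filter.2 ⟨Finset.mem_univ _, Finset.card_eq_one.2 ⟨c, ?_⟩⟩
  refine Finset.eq_singleton_iff_unique_mem.2 ⟨Finset.mem_filter.2 ⟨hc, hcx⟩, fun y hy => ?_⟩
  obtain ⟨h1, h2⟩ := Finset.mem_filter.1 hy
  rw [huniq y (hR h1) h2, huniq c (hR hc) hcx]

private theorem LocV_uniq (v : Fin M → Fin D → Fin N) {S : Finset (Fin M)} {x : Fin D × Fin N}
    (hx : x ∈ SymGap.bdry v S) {c c' : Fin M} (hc : c ∈ S) (hc' : c' ∈ S)
    (h : v c x.1 = x.2) (h' : v c' x.1 = x.2) : c = c' := by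
  obtain ⟨a, ha⟩ := Finset.card_eq_one.1 (Finset.mem_filter.1 hx).2
  have huniq : ∀ y ∈ S, v y x.1 = x.2 → y = a := by
    intro y hy hyx
    have h1 : y ∈ S.filter fun c => v c x.1 = x.2 := Finset.mem_filter.2 ⟨hy, hyx⟩
    rw [ha] at h1
    exact Finset.mem_singleton.1 h1
  rw [huniq c hc h, huniq c' hc' h']

private theorem LocV_mem (v : Fin M → Fin D → Fin N) {S : Finset (Fin M)} {x : Fin D × Fin N}
    (hx : x ∈ SymGap.bdry v S) : ∃ c ∈ S, v c x.1 = x.2 := by
  obtain ⟨c, hc⟩ := Finset.card_eq_one.1 (Finset.mem_filter.1 hx).2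
  have hc1 : c ∈ S.filter fun c => v c x.1 = x.2 := by
    rw [hc]
    exact Finset.mem_singleton_self c
  obtain ⟨hcS, hcx⟩ := Finset.mem_filter.1 hc1
  exact ⟨c, hcS, hcx⟩

/-- **Module LocV (1).**  The family of the sets `S` of at most `s1` constraints with
`bdry v S ⊆ Y` has a largest element.

PROOF.  `∅` is in the family.  It is closed under unions: if `x ∈ bdry v (S ∪ S')`, then `x` is a
variable of exactly one `c ∈ S ∪ S'`, which is in `S` or in `S'`; so `x ∈ bdry v S` or
`x ∈ bdry v S'` (a filter with exactly one element restricted to a subset which contains this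
element).  Hence `bdry v (S ∪ S') ⊆ Y`; `(S ∪ S').card ≤ 2 * s1`, so by expansion
`(S ∪ S').card ≤ (bdry v (S ∪ S')).card ≤ Y.card ≤ s1`.  Take the union of the whole family
(`Finset.sup_induction` as in `exists_closure` of `MP_0a1b52_lc_SG/Loc.lean`). -/
theorem exists_closureV (v : Fin M → Fin D → Fin N) {s1 : ℕ}
    (hv : SymGap.Expands v 1 (2 * s1)) (Y : Finset (Fin D × Fin N)) (hY : Y.card ≤ s1) :
    ∃ S0 : Finset (Fin M), S0.card ≤ s1 ∧
      ∀ S : Finset (Fin M), S.card ≤ s1 → SymGap.bdry v S ⊆ Y → S ⊆ S0 := by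
  classical
  have hU : ∀ S, (S.card ≤ s1 ∧ SymGap.bdry v S ⊆ Y) → ∀ S', (S'.card ≤ s1 ∧
      SymGap.bdry v S' ⊆ Y) → ((S ⊔ S').card ≤ s1 ∧ SymGap.bdry v (S ⊔ S') ⊆ Y) := by
    rintro S ⟨h1, h2⟩ S' ⟨h3, h4⟩
    rw [Finset.sup_eq_union]
    have h5 : SymGap.bdry v (S ∪ S') ⊆ Y := by
      intro x hx
      obtain ⟨c, hc, hcx⟩ := LocV_mem v hx
      rcases Finset.mem_union.1 hc with hc1 | hc1
      · exact h2 (LocV_bdry v Finset.subset_union_left hc1 hcx hx)
      · exact h4 (LocV_bdry v Finset.subset_union_right hc1 hcx hx)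
    have h6 : (S ∪ S').card ≤ 2 * s1 := by
      have := Finset.card_union_le S S'
      omega
    have h7 := hv _ h6
    have h8 := Finset.card_le_card h5
    exact ⟨by omega, h5⟩
  have h0 : (⊥ : Finset (Fin M)).card ≤ s1 ∧ SymGap.bdry v (⊥ : Finset (Fin M)) ⊆ Y := by
    rw [Finset.bot_eq_empty]
    refine ⟨by simp, fun x hx => ?_⟩
    obtain ⟨c, hc, -⟩ := LocV_mem v hx
    exact absurd hc (Finset.notMem_empty c)
  refine ⟨((Finset.univ : Finset (Finset (Fin M))).filter
    fun S => S.card ≤ s1 ∧ SymGap.bdry v S ⊆ Y).sup id, ?_, ?_⟩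
  · exact (Finset.sup_induction
      (p := fun S : Finset (Fin M) => S.card ≤ s1 ∧ SymGap.bdry v S ⊆ Y) h0 hU
      (fun S hS => (Finset.mem_filter.1 hS).2)).1
  · intro S h1 h2
    exact Finset.le_sup (f := id) (Finset.mem_filter.2 ⟨Finset.mem_univ S, h1, h2⟩)

/-- **Module LocV (2).**  A local solution near `Y` can be changed outside of `Y` to become a
solution on any given set `S` of at most `s1` constraints.

PROOF by strong induction on `S`.  If `bdry v S ⊆ Y`, take `κ' = κ` (definition of `solV`).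
Otherwise there is `x ∈ bdry v S`, `x ∉ Y`, and exactly one `c ∈ S` with `v c x.1 = x.2`.  The
induction hypothesis for `S.erase c` gives `κ''`.  Let `κ'` be `κ''` with the value at `x`
replaced by `b c - ∑ i ∈ univ.erase x.1, κ'' (i, v c i)`.  The sum for `c` is then `b c`, because
`(i, v c i) = x` iff `i = x.1`.  For `c' ∈ S.erase c`: `v c' x.1 ≠ x.2`, so no `(i, v c' i)` is
`x` and the sum does not change. -/
theorem extV (v : Fin M → Fin D → Fin N) (b : Fin M → ZMod p) {s1 : ℕ}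
    {Y : Finset (Fin D × Fin N)} {κ : Fin D × Fin N → ZMod p} (hκ : κ ∈ solV v b s1 Y)
    (S : Finset (Fin M)) (hS : S.card ≤ s1) :
    ∃ κ' : Fin D × Fin N → ZMod p, (∀ x ∈ Y, κ' x = κ x) ∧
      ∀ c ∈ S, ∑ i, κ' (i, v c i) = b c := by
  classical
  induction S using Finset.strongInduction with
  | H S ih =>
    by_cases hb : SymGap.bdry v S ⊆ Y
    · exact ⟨κ, fun _ _ => rfl, hκ S hS hb⟩
    · obtain ⟨x, hx, hxY⟩ := Finset.not_subset.1 hb
      obtain ⟨c, hcS, hcx⟩ := LocV_mem v hx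
      obtain ⟨κ'', h1, h2⟩ := ih (S.erase c) (Finset.erase_ssubset hcS)
        ((Finset.card_le_card (Finset.erase_subset c S)).trans hS)
      refine ⟨Function.update κ'' x (b c - ∑ i ∈ Finset.univ.erase x.1, κ'' (i, v c i)), ?_, ?_⟩
      · intro y hy
        have hne : y ≠ x := fun h => hxY (h ▸ hy)
        rw [Function.update_of_ne hne]
        exact h1 y hy
      · intro c' hc'
        by_cases hcc : c' = c
        · subst hcc
          rw [← Finset.add_sum_erase _ _ (Finset.mem_univ x.1)]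
          have h3 : (x.1, v c' x.1) = x := Prod.ext rfl hcx
          have h4 : ∑ i ∈ Finset.univ.erase x.1, Function.update κ'' x
              (b c' - ∑ i ∈ Finset.univ.erase x.1, κ'' (i, v c' i)) (i, v c' i) =
              ∑ i ∈ Finset.univ.erase x.1, κ'' (i, v c' i) := by
            refine Finset.sum_congr rfl fun i hi => ?_
            have hne : (i, v c' i) ≠ x := fun h =>
              (Finset.ne_of_mem_erase hi) (congrArg Prod.fst h)
            exact Function.update_of_ne hne _ _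
          rw [h4, h3, Function.update_self]
          exact sub_add_cancel _ _
        · have h5 := h2 c' (Finset.mem_erase.2 ⟨hcc, hc'⟩)
          rw [← h5]
          refine Finset.sum_congr rfl fun i _ => ?_
          have hne : (i, v c' i) ≠ x := by
            intro h
            exact hcc (LocV_uniq v hx hc' hcS (by rw [← h]) hcx)
          exact Function.update_of_ne hne _ _

/-- **Module LocV (3).**  `bdry v S ⊆ Y` implies `bdry v S ⊆ Y'`. -/
theorem solV_mono (v : Fin M → Fin D → Fin N) (b : Fin M → ZMod p) {s1 : ℕ}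
    {Y Y' : Finset (Fin D × Fin N)} (h : Y ⊆ Y') : solV v b s1 Y' ⊆ solV v b s1 Y := by
  intro κ hκ S hS hb
  exact hκ S hS (hb.trans h)

/-- **Module LocV (4).**

PROOF.  `S0` from (1) for `Y'`, `κ'` from (2) for `κ` and `S0`.  If `S.card ≤ s1` and
`bdry v S ⊆ Y'`, then `S ⊆ S0`. -/
theorem solV_ext (v : Fin M → Fin D → Fin N) (b : Fin M → ZMod p) {s1 : ℕ}
    (hv : SymGap.Expands v 1 (2 * s1)) {Y Y' : Finset (Fin D × Fin N)} (hY : Y'.card ≤ s1)
    {κ : Fin D × Fin N → ZMod p} (hκ : κ ∈ solV v b s1 Y) :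
    ∃ κ' ∈ solV v b s1 Y', ∀ x ∈ Y, κ' x = κ x := by
  obtain ⟨S0, hS0, hmax⟩ := exists_closureV v hv Y' hY
  obtain ⟨κ', h1, h2⟩ := extV v b hκ S0 hS0
  exact ⟨κ', fun S hS hb c hc => h2 c (hmax S hS hb hc), h1⟩

/-- **Module LocV (5).**  `bdry v S ⊆ ∅` and `S.card ≤ s1` imply `S = ∅` by expansion. -/
theorem mem_solV_empty (v : Fin M → Fin D → Fin N) (b : Fin M → ZMod p) {s1 : ℕ}
    (hv : SymGap.Expands v 1 (2 * s1)) (κ : Fin D × Fin N → ZMod p) : κ ∈ solV v b s1 ∅ := by
  intro S hS hb c hc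
  exfalso
  have h1 := hv S (by omega)
  have h2 := Finset.card_le_card hb
  rw [Finset.card_empty] at h2
  have h3 := Finset.card_pos.2 ⟨c, hc⟩
  omega

/-- **Module LocV (6).**  If all variables of `c` are in `Y`, then `bdry v {c} ⊆ Y`: an element `x`
of `bdry v {c}` satisfies `v c x.1 = x.2`, i.e. `x = (x.1, v c x.1)`. -/
theorem solV_eq (v : Fin M → Fin D → Fin N) (b : Fin M → ZMod p) {s1 : ℕ} (hs1 : 1 ≤ s1)
    {Y : Finset (Fin D × Fin N)} {κ : Fin D × Fin N → ZMod p} (hκ : κ ∈ solV v b s1 Y)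
    {c : Fin M} (hc : ∀ i, (i, v c i) ∈ Y) : ∑ i, κ (i, v c i) = b c := by
  refine hκ {c} (by rw [Finset.card_singleton]; exact hs1) (fun x hx => ?_) c
    (Finset.mem_singleton_self c)
  obtain ⟨c', hc', hx'⟩ := LocV_mem v hx
  rw [Finset.mem_singleton.1 hc'] at hx'
  have h3 : (x.1, v c x.1) = x := Prod.ext rfl hx'
  rw [← h3]
  exact hc x.1

end Pool.Agent.SymRand
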