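import Pool.Agent.Lib.MP_b573ec_lc_SYR.Defs2
import Pool.Agent.Lib.MP_0a1b52_lc_SG.Tr

/-!
# Project SYR, module Tr1: translations modulo `p` as even permutations
-/

namespace Pool.Agent.SymRand

open Pool.Agent

/-- **Module Tr1.**  PROOF.  Use `SymGap.exists_tr` (finished, `MP_0a1b52_lc_SG/Tr.lean`) with
`d = 1`, `m = p` and `pos u = ⟨(u 0).val, ZMod.val_lt _⟩ : Fin p` (injective by
`ZMod.val_injective`), composed with the isomorphism
`Multiplicative (ZMod p) →* Multiplicative (Fin 1 → ZMod p)`, `u ↦ fun _ => u`.  Every `z : Fin p`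
is `pos (fun _ => (z : ℕ))` (`ZMod.val_natCast`, `Nat.mod_eq_of_lt`), and
`((pos u : Fin p) : ℕ) = (u 0).val` casts to `u 0` (`ZMod.natCast_zmod_val`).  The range of the
composition is contained in the range of the original map, so its order divides `p ^ 1`
(`Subgroup.card_dvd_of_le`).  Or adapt the proof of `exists_tr` directly. -/
theorem exists_tr1 {p : ℕ} [NeZero p] (hp : Odd p) :
    ∃ tr : Multiplicative (ZMod p) →* alternatingGroup (Fin p),
      (∀ (u : ZMod p) (z : Fin p),
        (((tr (Multiplicative.ofAdd u) : Equiv.Perm (Fin p)) z : ℕ) : ZMod p) = (z : ℕ) + u) ∧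
      Nat.card tr.range ∣ p := by
  classical
  let pos : ZMod p ↪ Fin p :=
    ⟨fun u => ⟨u.val, ZMod.val_lt u⟩, fun a b hab => ZMod.val_injective p (Fin.mk.inj hab)⟩
  let h0 : Multiplicative (ZMod p) →* Equiv.Perm (ZMod p) :=
    { toFun := fun u => Equiv.addRight (Multiplicative.toAdd u)
      map_one' := by
        apply Equiv.ext
        intro x
        show x + 0 = x
        rw [add_zero]
      map_mul' := by
        intro a b
        apply Equiv.ext
        intro x
        show x + (Multiplicative.toAdd a + Multiplicative.toAdd b) =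
          (x + Multiplicative.toAdd b) + Multiplicative.toAdd a
        abel }
  let h : Multiplicative (ZMod p) →* Equiv.Perm (Fin p) :=
    (Equiv.Perm.viaEmbeddingHom pos).comp h0
  have hpow : ∀ u : Multiplicative (ZMod p), u ^ p = 1 := by
    intro u
    apply Multiplicative.toAdd.injective
    show p • Multiplicative.toAdd u = 0
    simp
  have hmem : ∀ u, h u ∈ alternatingGroup (Fin p) := by
    intro u
    rw [Equiv.Perm.mem_alternatingGroup]
    have h1 : Equiv.Perm.sign (h u) ^ p = 1 := by
      rw [← map_pow, ← map_pow, hpow, map_one, map_one]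
    rcases Int.units_eq_one_or (Equiv.Perm.sign (h u)) with h2 | h2
    · exact h2
    · rw [h2, hp.neg_one_pow] at h1
      exact absurd h1 (by decide)
  refine ⟨h.codRestrict (alternatingGroup (Fin p)) hmem, ?_, ?_⟩
  · intro u z
    have hz : pos ((z : ℕ) : ZMod p) = z := by
      apply Fin.ext
      show (((z : ℕ) : ZMod p)).val = (z : ℕ)
      rw [ZMod.val_natCast, Nat.mod_eq_of_lt z.2]
    have h1 : h (Multiplicative.ofAdd u) z = pos (((z : ℕ) : ZMod p) + u) := by
      conv_lhs => rw [← hz]
      exact Equiv.Perm.viaEmbedding_apply (Equiv.addRight u) pos _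
    show ((h (Multiplicative.ofAdd u) z : ℕ) : ZMod p) = (z : ℕ) + u
    rw [h1]
    show (((((z : ℕ) : ZMod p) + u).val : ℕ) : ZMod p) = (z : ℕ) + u
    rw [ZMod.natCast_zmod_val]
  · have h1 := Subgroup.card_range_dvd (h.codRestrict (alternatingGroup (Fin p)) hmem)
    have h2 : Nat.card (Multiplicative (ZMod p)) = p := by
      rw [Nat.card_congr (Multiplicative.toAdd : Multiplicative (ZMod p) ≃ _), Nat.card_zmod]
    rw [h2] at h1
    exact h1

end Pool.Agent.SymRand
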