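import Pool.Agent.Lib.MP_b573ec_lc_SYR.LocV
import Pool.Agent.Lib.MP_b573ec_lc_SYR.Tr1
import Pool.Agent.Lib.MP_b573ec_lc_SYR.InstV

/-!
# Project SYR, module MkS: the data of the induction over the gates
-/

namespace Pool.Agent.SymRand

open Pool.Agent

variable {D N M p n ℓ : ℕ}

/-- the variables with numbers in `B` -/
private def MkS_pre (P : Setup D N M p n) (B : Finset (Fin n)) : Finset (Fin D × Fin N) :=
  Finset.univ.filter fun X => P.bl X ∈ B

private theorem MkS_mem (P : Setup D N M p n) {B : Finset (Fin n)} {X : Fin D × Fin N} :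
    X ∈ MkS_pre P B ↔ P.bl X ∈ B := by
  simp [MkS_pre]

private theorem MkS_card (P : Setup D N M p n) (B : Finset (Fin n)) :
    (MkS_pre P B).card ≤ B.card :=
  Finset.card_le_card_of_injOn P.bl (fun _ hc => (MkS_mem P).1 hc) P.bl.injective.injOn

private theorem MkS_mono (P : Setup D N M p n) {B B' : Finset (Fin n)} (h : B ⊆ B') :
    MkS_pre P B ⊆ MkS_pre P B' := fun _ hc => (MkS_mem P).2 (h ((MkS_mem P).1 hc))

/-- **Module MkS.**  (Adapt `exists_sys` in `MP_0a1b52_lc_SG/MkSys.lean`.)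

PROOF.  `tr` from `exists_tr1`.  For `B : Finset (Fin n)` let
`pre B = Finset.univ.filter fun X => P.bl X ∈ B`; its card is at most `B.card`.
`a = act P.rho`, `a_mul = act_mul P.rho`, `T = tr.range` (`T_cop`: its order divides `p`, which is
prime to `ℓ`: `Nat.Coprime.coprime_dvd_left`), `z0 = P.inst 0`,
`z κ = P.inst fun c => b c - ∑ i, κ (i, P.v c i)`, `K B = solV P.v b s1 (pre B)`, `k' = s1`.
`mono`: `solV_mono`.
`ext`: `(pre B').card ≤ B'.card ≤ s1`, so `solV_ext` gives `κ' ∈ K B'` with `κ' X = κ X` for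
`P.bl X ∈ B`.  Let `τ i = tr (ofAdd (κ' X - κ X))` for `i = P.bl X`, and `τ i = 1` for
`i ∉ Set.range P.bl` (`Function.extend P.bl _ 1`).  `τ ∈ PB T B` (`SymGap.mem_PB`, `ofAdd_zero`,
`map_one`), and `act_inst` (offsets `b c - ∑ i, κ (i, P.v c i)`) gives `z κ' = act P.rho τ (z κ)`:
`b c - ∑ κ - ∑ (κ' - κ) = b c - ∑ κ'` (`Finset.sum_sub_distrib`).
`S.z 0 = P.inst b`: `∑ 0 = 0`.  `0 ∈ S.K ∅`: `pre ∅ = ∅`, `mem_solV_empty`.
Bits: `B0` from `bit_local`.  Let `κ ∈ K B0`.  If `P.bl (i, P.v c i) ∈ B0` for all `i`, then by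
`solV_eq` `∑ i, κ (i, P.v c i) = b c`, so the offset `b c - ∑ i, κ (i, P.v c i)` of `z κ` is `0`, as
that of `z0`. -/
theorem exists_sysV [NeZero p] (hp : Odd p) (hpl : p.Coprime ℓ) (P : Setup D N M p n)
    (b : Fin M → ZMod p) {s1 : ℕ} (hs1 : 1 ≤ s1) (hv : SymGap.Expands P.v 1 (2 * s1)) :
    ∃ S : SymGap.Sys (Fin n) (alternatingGroup (Fin p)) (Fin n → Bool)
        (Fin D × Fin N → ZMod p) ℓ,
      S.a = act P.rho ∧ S.z0 = P.inst 0 ∧ S.z 0 = P.inst b ∧ 0 ∈ S.K ∅ ∧ S.k' = s1 ∧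
      ∀ k : Fin n, ∃ B0 : Finset (Fin n), B0.card ≤ D ∧ ∀ σ, ∀ κ ∈ S.K B0,
        S.a σ S.z0 k = S.a σ (S.z κ) k := by
  obtain ⟨tr, htr, hdvd⟩ := exists_tr1 hp
  refine ⟨{
    a := act P.rho
    a_mul := act_mul P.rho
    T := tr.range
    T_cop := Nat.Coprime.coprime_dvd_left hdvd hpl
    z0 := P.inst 0
    z := fun κ => P.inst fun c => b c - ∑ i, κ (i, P.v c i)
    K := fun B => solV P.v b s1 (MkS_pre P B)
    k' := s1
    mono := fun B B' κ h hκ => solV_mono P.v b (MkS_mono P h) hκ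
    ext := ?_ }, rfl, rfl, ?_, ?_, rfl, ?_⟩
  · intro B B' κ hBB hB' hκ
    obtain ⟨κ', hκ', hag⟩ := solV_ext P.v b hv ((MkS_card P B').trans hB') hκ
    obtain ⟨w, hw⟩ : ∃ w : Fin D × Fin N → ZMod p, w = fun X => κ' X - κ X := ⟨_, rfl⟩
    obtain ⟨τ, hτdef⟩ : ∃ τ : Fin n → alternatingGroup (Fin p), τ = Function.extend P.bl
        (fun X => tr (Multiplicative.ofAdd (w X))) (fun _ => 1) := ⟨_, rfl⟩
    have hτ : ∀ X, τ (P.bl X) = tr (Multiplicative.ofAdd (w X)) := fun X => by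
      rw [hτdef]
      exact P.bl.injective.extend_apply _ _ X
    have hτ' : ∀ i ∉ Set.range P.bl, τ i = 1 := fun i hi => by
      rw [hτdef]
      exact Function.extend_apply' _ _ _ hi
    have h0 : ∀ X, P.bl X ∈ B → w X = 0 := fun X hX => by
      rw [hw]
      exact sub_eq_zero.2 (hag X ((MkS_mem P).2 hX))
    refine ⟨κ', hκ', τ, SymGap.mem_PB.2 ⟨fun i => ?_, fun i hi => ?_⟩, ?_⟩
    · by_cases h : i ∈ Set.range P.bl
      · obtain ⟨X, rfl⟩ := h
        rw [hτ]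
        exact ⟨_, rfl⟩
      · rw [hτ' i h]
        exact Subgroup.one_mem _
    · by_cases h : i ∈ Set.range P.bl
      · obtain ⟨X, rfl⟩ := h
        rw [hτ, h0 X hi]
        exact map_one tr
      · exact hτ' i h
    · rw [act_inst P tr htr _ w τ hτ]
      congr 1
      funext c
      rw [hw]
      simp only [Finset.sum_sub_distrib]
      ring
  · show P.inst (fun c => b c - ∑ i, (0 : Fin D × Fin N → ZMod p) (i, P.v c i)) = P.inst b
    congr 1
    funext c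
    simp
  · have h1 : MkS_pre P ∅ = ∅ := by
      ext X
      simp [MkS_pre]
    show (0 : Fin D × Fin N → ZMod p) ∈ solV P.v b s1 (MkS_pre P ∅)
    rw [h1]
    exact mem_solV_empty P.v b hv 0
  · intro k
    obtain ⟨B0, hB0, h⟩ := bit_local P k
    refine ⟨B0, hB0, fun σ κ hκ => ?_⟩
    show act P.rho σ (P.inst 0) k =
      act P.rho σ (P.inst fun c => b c - ∑ i, κ (i, P.v c i)) k
    refine h _ _ (fun c hc => ?_) σ
    have h2 := solV_eq P.v b hs1 hκ (c := c) (fun i => (MkS_mem P).2 (hc i))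
    show (0 : ZMod p) = b c - ∑ i, κ (i, P.v c i)
    rw [h2, sub_self]

end Pool.Agent.SymRand
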